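import Pool.Agent.Helper50.CP.Small

/-! # CP-5: the bound on balls whose doubles have at most half of the volume

PROOF. `main` (CG) for the ball `eball y s` with the Sobolev constant `8 S` (`sob_of_half`) and the
same `K`, `Lam`: the hypotheses on `G` hold on `eball y (2 s) ⊆ eball a (2 r)` (`s ≤ r`: for the
Ricci bound, if `∑ ricci v v ≤ 0` then `s² · ≤ 0 ≤ K|v|²`, else `s² · ≤ r² ·`), and
`lam gvol(eball y (2s))^(2/n) ≤ lam V^(2/n) ≤ Lam`. The term
`n lam gvol(eball y s) ≤ n lam gvol(eball y (2s))^(2/n) gvol(eball y (2s))^((n-2)/n)` is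
`≤ n Lam gvol(eball y (2s))^((n-2)/n)` (`2/n + (n-2)/n = 1`). `C₁ = |C| + n |Lam| + 1`. -/

namespace Pool.Agent.Helper50.CP

open scoped ContDiff Topology
open Pool.Agent.Helper49.Ric Pool.Agent.Helper73.HB Pool.Agent.Helper50.CF
  Pool.Agent.Helper50.CG MeasureTheory Filter

noncomputable section

variable {n : ℕ} {K S Lam : ℝ} {Ω : Set (Fin n → ℝ)}
  {G : (Fin n → ℝ) → Matrix (Fin n) (Fin n) ℝ} {u : (Fin n → ℝ) → ℝ} {a : Fin n → ℝ} {r lam : ℝ}

theorem exists_ball (n : ℕ) (K S Lam : ℝ) : ∃ C₁ : ℝ, 0 ≤ C₁ ∧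
    ∀ {Ω : Set (Fin n → ℝ)} {G : (Fin n → ℝ) → Matrix (Fin n) (Fin n) ℝ} {u : (Fin n → ℝ) → ℝ}
      {a : Fin n → ℝ} {r lam : ℝ}, Setup n K S Lam Ω G u a r lam →
      ∀ (y : Fin n → ℝ) (s : ℝ), y ∈ ecball a r → 0 < s → 2 * s ≤ r →
        gvol (cmet u G) (eball y (2 * s)) ≤ 1 / 2 * gvol (cmet u G) (eball a (2 * r)) →
        ∫ p in eball y s, (scal (cmet u G) p + n * lam) * Real.sqrt (cmet u G p).det ≤
          C₁ * gvol (cmet u G) (eball y (2 * s)) ^ ((n - 2) / n : ℝ) := by
  by_cases hnK : 3 ≤ n ∧ 1 ≤ K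
  swap
  · exact ⟨0, le_rfl, fun h => absurd ⟨h.hn, h.hK⟩ hnK⟩
  obtain ⟨hn, hK⟩ := hnK
  obtain ⟨C, H⟩ := CG.main hn hK (8 * S) Lam
  refine ⟨|C| + n * |Lam|, by positivity, ?_⟩
  intro Ω G u a r lam h y s hy hs h2s hv
  have hn0 : (0 : ℝ) < n := by exact_mod_cast (by omega : 0 < n)
  have hn3 : (3 : ℝ) ≤ n := by exact_mod_cast hn
  have hr : 0 < r := h.bg.pos
  have hlam := h.lam0
  have hsub : eball y (2 * s) ⊆ eball a (2 * r) :=
    eball_sub (by linarith) hr.le hy (by linarith)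
  have hsub1 : eball y s ⊆ eball a (2 * r) := eball_sub hs hr.le hy (by linarith)
  have hsub12 : eball y s ⊆ eball y (2 * s) := fun p hp => by
    have h1 : ∑ i, (p i - y i) ^ 2 < s ^ 2 := hp
    have h2 : ∑ i, (p i - y i) ^ 2 < (2 * s) ^ 2 := by nlinarith
    exact h2
  have hsubc : ecball y (2 * s) ⊆ Ω :=
    (ecball_sub (by linarith) hr.le hy (by linarith)).trans h.bg.sub
  have hm : MeasurableSet (eball y (2 * s)) := (isOpen_eball y (2 * s)).measurableSet
  have hsob := sob_of_half h hsub hm hv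
  set W := gvol (cmet u G) (eball y (2 * s)) with hW
  have hW0 : 0 ≤ W := gvol_nonneg _ _
  have hWV : W ≤ gvol (cmet u G) (eball a (2 * r)) :=
    h.vol_mono hsub subset_rfl (isOpen_eball a (2 * r)).measurableSet
  have hWs : gvol (cmet u G) (eball y s) ≤ W := h.vol_mono hsub12 hsub hm
  have hLamW : lam * W ^ (2 / n : ℝ) ≤ Lam := by
    refine le_trans ?_ h.small
    exact mul_le_mul_of_nonneg_left (Real.rpow_le_rpow hW0 hWV (by positivity)) hlam
  have hmain := H Ω G u y s lam h.bg.opn h.bg.met h.smooth hs hsubc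
    (fun p hp v => h.bg.low p (hsub hp) v) (fun p hp v => h.bg.up p (hsub hp) v)
    (fun p hp v => by
      have h1 := h.bg.ric p (hsub hp) v
      have h2 : 0 ≤ K * ∑ i, v i ^ 2 :=
        mul_nonneg (by linarith) (Finset.sum_nonneg fun i _ => sq_nonneg _)
      rcases le_total (∑ i, ∑ j, ricci G i j p * v i * v j) 0 with h3 | h3
      · exact le_trans (mul_nonpos_of_nonneg_of_nonpos (sq_nonneg s) h3) h2
      · refine le_trans (mul_le_mul_of_nonneg_right ?_ h3) h1
        exact pow_le_pow_left₀ hs.le (by linarith) 2)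
    hlam (fun p hp v => h.ric p (hsub hp) v) hsob hLamW
  have hF : IntegrableOn (fun p => (scal (cmet u G) p + n * lam) * Real.sqrt (cmet u G p).det)
      (eball y s) := h.integrableOn h.sc_cont hsub1
  have hD : IntegrableOn (fun p => Real.sqrt (cmet u G p).det) (eball y s) :=
    h.integrableOn h.dens_cont hsub1
  have hsplit : ∫ p in eball y s, (scal (cmet u G) p + n * lam) * Real.sqrt (cmet u G p).det =
      (∫ p in eball y s, scal (cmet u G) p * Real.sqrt (cmet u G p).det) +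
        n * lam * gvol (cmet u G) (eball y s) := by
    have h1 : ∫ p in eball y s, scal (cmet u G) p * Real.sqrt (cmet u G p).det =
        (∫ p in eball y s, (scal (cmet u G) p + n * lam) * Real.sqrt (cmet u G p).det) -
          ∫ p in eball y s, n * lam * Real.sqrt (cmet u G p).det := by
      rw [← integral_sub hF (hD.const_mul _)]
      refine integral_congr_ae (Eventually.of_forall fun p => ?_)
      simp only
      ring
    rw [h1, integral_const_mul]
    unfold gvol
    ring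
  have hexp : (2 / n : ℝ) + ((n - 2) / n : ℝ) = 1 := by field_simp; ring
  have hWsplit : W = W ^ (2 / n : ℝ) * W ^ ((n - 2) / n : ℝ) := by
    rw [← Real.rpow_add' hW0 (by rw [hexp]; norm_num), hexp, Real.rpow_one]
  have hWp : 0 ≤ W ^ ((n - 2) / n : ℝ) := Real.rpow_nonneg hW0 _
  have hterm : n * lam * gvol (cmet u G) (eball y s) ≤ n * |Lam| * W ^ ((n - 2) / n : ℝ) := by
    have h1 : lam * W ≤ |Lam| * W ^ ((n - 2) / n : ℝ) := by
      calc lam * W = (lam * W ^ (2 / n : ℝ)) * W ^ ((n - 2) / n : ℝ) := by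
            rw [mul_assoc, ← hWsplit]
        _ ≤ |Lam| * W ^ ((n - 2) / n : ℝ) :=
            mul_le_mul_of_nonneg_right (hLamW.trans (le_abs_self _)) hWp
    calc n * lam * gvol (cmet u G) (eball y s) ≤ n * lam * W :=
          mul_le_mul_of_nonneg_left hWs (by positivity)
      _ = n * (lam * W) := by ring
      _ ≤ n * (|Lam| * W ^ ((n - 2) / n : ℝ)) := mul_le_mul_of_nonneg_left h1 hn0.le
      _ = n * |Lam| * W ^ ((n - 2) / n : ℝ) := by ring
  rw [hsplit, add_mul]
  refine add_le_add ?_ hterm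
  exact hmain.trans (mul_le_mul_of_nonneg_right (le_abs_self C) hWp)

end

end Pool.Agent.Helper50.CP
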