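import Pool.Agent.Helper50.CP.Vol

/-! # CP-7: the concentration scale

PROOF. Let `P j` be: some `y ∈ ecball a r` has `(1/2) V ≤ gvol (eball y (r/8/2^j))`. If `¬ P 0` the
first alternative holds. `P j` fails for large `j`: the density is bounded by some `M` on
`ecball a (2 r)`, `gvol (eball y s) ≤ M vol (eball y s) ≤ M (2 s)^n` (the ball lies in a cube of side
`2 s`), and `V > 0`. Take the largest `j` with `P j` (`Nat.find` for `¬ P`). -/

namespace Pool.Agent.Helper50.CP

open scoped ContDiff Topology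
open Pool.Agent.Helper49.Ric Pool.Agent.Helper73.HB Pool.Agent.Helper50.CF
  Pool.Agent.Helper50.CG MeasureTheory Filter

noncomputable section

variable {n : ℕ} {K S Lam : ℝ} {Ω : Set (Fin n → ℝ)}
  {G : (Fin n → ℝ) → Matrix (Fin n) (Fin n) ℝ} {u : (Fin n → ℝ) → ℝ} {a : Fin n → ℝ} {r lam : ℝ}

/-- a Euclidean ball of radius `s` lies in a cube of side `2 s` -/
theorem vol_eball_le (y : Fin n → ℝ) {s : ℝ} (hs : 0 < s) :
    volume.real (eball y s) ≤ (2 * s) ^ n := by
  have hsub : eball y s ⊆ Set.Icc (fun i => y i - s) (fun i => y i + s) := by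
    intro p hp
    have h1 : ∑ j, (p j - y j) ^ 2 < s ^ 2 := hp
    have h2 : ∀ i, |p i - y i| ≤ s := by
      intro i
      have h3 : (p i - y i) ^ 2 ≤ ∑ j, (p j - y j) ^ 2 :=
        Finset.single_le_sum (f := fun j => (p j - y j) ^ 2) (fun j _ => sq_nonneg _)
          (Finset.mem_univ i)
      exact abs_le_of_sq_le_sq (h3.trans h1.le) hs.le
    refine ⟨fun i => ?_, fun i => ?_⟩
    · have := (abs_le.mp (h2 i)).1
      show y i - s ≤ p i
      linarith
    · have := (abs_le.mp (h2 i)).2
      show p i ≤ y i + s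
      linarith
  have hfin : volume (Set.Icc (fun i => y i - s) (fun i => y i + s)) ≠ ⊤ :=
    isCompact_Icc.measure_lt_top.ne
  refine (measureReal_mono hsub hfin).trans (le_of_eq ?_)
  rw [Measure.real, Real.volume_Icc_pi_toReal]
  · have e1 : ∀ i : Fin n, y i + s - (y i - s) = 2 * s := fun i => by ring
    simp only [e1, Finset.prod_const, Finset.card_univ, Fintype.card_fin]
  · intro i
    show y i - s ≤ y i + s
    linarith

theorem conc (h : Setup n K S Lam Ω G u a r lam) :
    (∀ y ∈ ecball a r, gvol (cmet u G) (eball y (r / 8)) <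
        1 / 2 * gvol (cmet u G) (eball a (2 * r))) ∨
      ∃ (j : ℕ) (x₀ : Fin n → ℝ), x₀ ∈ ecball a r ∧
        1 / 2 * gvol (cmet u G) (eball a (2 * r)) ≤ gvol (cmet u G) (eball x₀ (r / 8 / 2 ^ j)) ∧
        ∀ y ∈ ecball a r, gvol (cmet u G) (eball y (r / 8 / 2 ^ (j + 1))) <
          1 / 2 * gvol (cmet u G) (eball a (2 * r)) := by
  have hr := h.bg.pos
  have hn := h.hn
  set V := gvol (cmet u G) (eball a (2 * r)) with hV
  have hV0 : 0 < V := h.vol_pos
  obtain ⟨M, hM⟩ := (isCompact_ecball' a (2 * r)).exists_bound_of_continuousOn h.dens_cont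
  set M' : ℝ := max M 1 with hM'
  have hM'0 : 0 < M' := lt_of_lt_of_le one_pos (le_max_right _ _)
  -- small balls
  have hsmall : ∀ y ∈ ecball a r, ∀ s : ℝ, 0 < s → s ≤ r →
      gvol (cmet u G) (eball y s) ≤ M' * (2 * s) ^ n := by
    intro y hy s hs hsr
    have hsub : eball y s ⊆ eball a (2 * r) := eball_sub hs hr.le hy (by linarith)
    have hfin : volume (eball y s) < ⊤ :=
      lt_of_le_of_lt (measure_mono (eball_subset_ecball' y s))
        (isCompact_ecball' y s).measure_lt_top
    have h1 : gvol (cmet u G) (eball y s) ≤ ∫ _p in eball y s, M' := by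
      unfold gvol
      refine setIntegral_mono_on (h.integrableOn h.dens_cont hsub)
        (integrableOn_const hfin.ne) (isOpen_eball y s).measurableSet fun p hp => ?_
      have h2 := hM p (eball_subset_ecball' a _ (hsub hp))
      rw [Real.norm_eq_abs] at h2
      exact (le_abs_self _).trans (h2.trans (le_max_left _ _))
    refine h1.trans ?_
    rw [setIntegral_const, smul_eq_mul, mul_comm]
    exact mul_le_mul_of_nonneg_left (vol_eball_le y hs) hM'0.le
  by_cases h0 : ∃ y ∈ ecball a r, 1 / 2 * V ≤ gvol (cmet u G) (eball y (r / 8))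
  · right
    classical
    -- the failing index
    have hex : ∃ j : ℕ, ∀ y ∈ ecball a r, gvol (cmet u G) (eball y (r / 8 / 2 ^ j)) < 1 / 2 * V := by
      have hlim : Tendsto (fun j : ℕ => M' * (2 * (r / 8)) * ((1 : ℝ) / 2) ^ j) atTop
          (𝓝 (M' * (2 * (r / 8)) * 0)) :=
        (tendsto_pow_atTop_nhds_zero_of_lt_one (by norm_num) (by norm_num)).const_mul _
      have hmax : ∀ s : ℝ, 0 < s → 2 * s ≤ 1 → M' * (2 * s) ^ n ≤ M' * (2 * s) := by
        intro s hs hs1
        refine mul_le_mul_of_nonneg_left ?_ hM'0.le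
        exact pow_le_of_le_one (by linarith) hs1 (by omega)
      have hlim2 : Tendsto (fun j : ℕ => 2 * (r / 8) * ((1 : ℝ) / 2) ^ j) atTop
          (𝓝 (2 * (r / 8) * 0)) :=
        (tendsto_pow_atTop_nhds_zero_of_lt_one (by norm_num) (by norm_num)).const_mul _
      rw [mul_zero] at hlim hlim2
      have hev := (hlim.eventually_lt_const (show (0 : ℝ) < 1 / 2 * V by linarith)).and
        (hlim2.eventually_lt_const (show (0 : ℝ) < 1 by norm_num))
      obtain ⟨j, hj1, hj2⟩ := hev.exists
      refine ⟨j, fun y hy => ?_⟩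
      have e1 : 2 * (r / 8 / 2 ^ j) = 2 * (r / 8) * ((1 : ℝ) / 2) ^ j := by
        rw [one_div, inv_pow]; ring
      have hs0 : 0 < r / 8 / 2 ^ j := by positivity
      have hsr : r / 8 / 2 ^ j ≤ r := by
        have h1 : (1 : ℝ) ≤ 2 ^ j := one_le_pow₀ (by norm_num)
        rw [div_le_iff₀ (by positivity)]
        nlinarith
      have h3 := hsmall y hy _ hs0 hsr
      have h4 := hmax _ hs0 (by rw [e1]; exact hj2.le)
      rw [e1] at h3 h4
      have h5 : M' * (2 * (r / 8) * ((1 : ℝ) / 2) ^ j) =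
          M' * (2 * (r / 8)) * ((1 : ℝ) / 2) ^ j := by ring
      rw [h5] at h4
      exact lt_of_le_of_lt (h3.trans h4) hj1
    have hJ := Nat.find_spec hex
    set J := Nat.find hex with hJd
    have hJ0 : J ≠ 0 := by
      intro h1
      rw [h1] at hJ
      obtain ⟨y, hy, h2⟩ := h0
      have h3 := hJ y hy
      rw [pow_zero, div_one] at h3
      linarith
    obtain ⟨j, hj⟩ := Nat.exists_eq_succ_of_ne_zero hJ0
    have hmin := Nat.find_min hex (m := j) (by rw [← hJd, hj]; exact Nat.lt_succ_self j)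
    simp only [not_forall, not_lt] at hmin
    obtain ⟨x₀, hx₀, h1⟩ := hmin
    refine ⟨j, x₀, hx₀, h1, ?_⟩
    rw [hj] at hJ
    exact hJ
  · left
    intro y hy
    by_contra h1
    exact h0 ⟨y, hy, not_lt.mp h1⟩

end

end Pool.Agent.Helper50.CP
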