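import Pool.Agent.Helper50.CP.Dist

/-! # CP-2: a covering lemma

PROOF. `ecball 0 2` is compact, so it is covered by finitely many balls `eball p (1/16)`, `p ∈ P`,
`N = card P`. For each `p ∈ P` such that `eball (x₀ + t p) (t/16)` meets `E` choose a point `y_p` of
`E` in it. `E ∩ eball (x₀ + t p) (t/16) ⊆ eball y_p (t/8)` (triangle inequality), and every point
of `E ⊆ ecball x₀ (2t)` is in some `eball (x₀ + t p) (t/16)`. -/

namespace Pool.Agent.Helper50.CP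

open scoped ContDiff Topology
open Pool.Agent.Helper49.Ric Pool.Agent.Helper73.HB Pool.Agent.Helper50.CF
  Pool.Agent.Helper50.CG MeasureTheory Filter

noncomputable section

variable {n : ℕ} {K S Lam : ℝ} {Ω : Set (Fin n → ℝ)}
  {G : (Fin n → ℝ) → Matrix (Fin n) (Fin n) ℝ} {u : (Fin n → ℝ) → ℝ} {a : Fin n → ℝ} {r lam : ℝ}

theorem exists_cover (n : ℕ) : ∃ N : ℕ, ∀ (x₀ : Fin n → ℝ) (t : ℝ), 0 < t →
    ∀ E : Set (Fin n → ℝ), E ⊆ ecball x₀ (2 * t) →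
      ∃ F : Finset (Fin n → ℝ), (∀ y ∈ F, y ∈ E) ∧ F.card ≤ N ∧
        ∀ x ∈ E, ∃ y ∈ F, x ∈ eball y (t / 8) := by
  classical
  obtain ⟨P, -, hP⟩ := (isCompact_ecball' (0 : Fin n → ℝ) 2).elim_nhds_subcover
    (fun p => eball p (1 / 16)) fun p _ => (isOpen_eball p (1 / 16)).mem_nhds (by
      change ∑ i, (p i - p i) ^ 2 < (1 / 16 : ℝ) ^ 2
      simp)
  refine ⟨P.card, fun x₀ t ht E hE => ?_⟩
  have hg : ∀ p : Fin n → ℝ, ∃ y : Fin n → ℝ, (∃ z ∈ E, z ∈ eball (x₀ + t • p) (t / 16)) →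
      y ∈ E ∧ y ∈ eball (x₀ + t • p) (t / 16) := by
    intro p
    by_cases h : ∃ z ∈ E, z ∈ eball (x₀ + t • p) (t / 16)
    · obtain ⟨z, h1, h2⟩ := h
      exact ⟨z, fun _ => ⟨h1, h2⟩⟩
    · exact ⟨x₀, fun h' => absurd h' h⟩
  choose g hg using hg
  refine ⟨(P.filter fun p => ∃ z ∈ E, z ∈ eball (x₀ + t • p) (t / 16)).image g, ?_, ?_, ?_⟩
  · intro y hy
    obtain ⟨p, hp, rfl⟩ := Finset.mem_image.1 hy
    exact (hg p (Finset.mem_filter.1 hp).2).1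
  · exact Finset.card_image_le.trans (Finset.card_filter_le _ _)
  · intro x hx
    have hx2 : ∑ i, (x i - x₀ i) ^ 2 ≤ (2 * t) ^ 2 := hE hx
    have hq : (t⁻¹ • (x - x₀)) ∈ ecball (0 : Fin n → ℝ) 2 := by
      change ∑ i, (t⁻¹ * (x i - x₀ i) - 0) ^ 2 ≤ (2 : ℝ) ^ 2
      have e1 : ∀ i, (t⁻¹ * (x i - x₀ i) - 0) ^ 2 = (t⁻¹) ^ 2 * (x i - x₀ i) ^ 2 := fun i => by
        ring
      rw [Finset.sum_congr rfl fun i _ => e1 i, ← Finset.mul_sum]
      calc (t⁻¹) ^ 2 * ∑ i, (x i - x₀ i) ^ 2 ≤ (t⁻¹) ^ 2 * (2 * t) ^ 2 :=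
            mul_le_mul_of_nonneg_left hx2 (sq_nonneg _)
        _ = 2 ^ 2 := by
            field_simp
    obtain ⟨p, hpP, hp⟩ : ∃ p ∈ P, (t⁻¹ • (x - x₀)) ∈ eball p (1 / 16) := by
      have := hP hq
      simpa using this
    have hxp : x ∈ eball (x₀ + t • p) (t / 16) := by
      change ∑ i, (x i - (x₀ i + t * p i)) ^ 2 < (t / 16) ^ 2
      have h1 : ∑ i, (t⁻¹ * (x i - x₀ i) - p i) ^ 2 < (1 / 16 : ℝ) ^ 2 := hp
      have e1 : ∀ i, (x i - (x₀ i + t * p i)) ^ 2 = t ^ 2 * (t⁻¹ * (x i - x₀ i) - p i) ^ 2 :=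
        fun i => by
          field_simp
          ring
      rw [Finset.sum_congr rfl fun i _ => e1 i, ← Finset.mul_sum]
      calc t ^ 2 * ∑ i, (t⁻¹ * (x i - x₀ i) - p i) ^ 2 < t ^ 2 * (1 / 16) ^ 2 :=
            mul_lt_mul_of_pos_left h1 (by positivity)
        _ = (t / 16) ^ 2 := by ring
    have hex : ∃ z ∈ E, z ∈ eball (x₀ + t • p) (t / 16) := ⟨x, hx, hxp⟩
    refine ⟨g p, Finset.mem_image_of_mem _ (Finset.mem_filter.2 ⟨hpP, hex⟩), ?_⟩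
    have ht16 : 0 < t / 16 := by positivity
    have h2 := (hg p hex).2
    rw [mem_eball ht16] at hxp h2
    rw [mem_eball (by positivity)]
    have h3 := ed_triangle x (x₀ + t • p) (g p)
    rw [ed_comm (x₀ + t • p) (g p)] at h3
    linarith

end

end Pool.Agent.Helper50.CP
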