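import Pool.Agent.Helper50.CG.Main

/-!
# From the Sobolev inequality to the Sobolev–Poincaré inequality

`SobPoin G A S`: for every smooth `f` with compact support in `A` there is a real `c` with
`(∫_A |f - c|^{2n/(n-2)} dv)^{(n-2)/n} ≤ S ∫ |∇f|² dv`.  This holds if the Sobolev inequality holds
on `A` (`c = 0`), and also if `A` is an open subset of a closed manifold on which the
Sobolev–Poincaré inequality holds.
-/

namespace Pool.Agent.Helper50.CP

open scoped ContDiff Topology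
open Pool.Agent.Helper49.Ric Pool.Agent.Helper73.HB Pool.Agent.Helper50.CF
  Pool.Agent.Helper50.CG MeasureTheory Filter

noncomputable section

variable {n : ℕ}

/-- The Sobolev–Poincaré inequality of the Riemannian metric `G` for smooth functions with compact
support in `A`: `(∫_A |f - c|^{2n/(n-2)} dv)^{(n-2)/n} ≤ S ∫ |∇f|² dv` for some real `c`. -/
def SobPoin (G : (Fin n → ℝ) → Matrix (Fin n) (Fin n) ℝ) (A : Set (Fin n → ℝ)) (S : ℝ) : Prop :=
  ∀ f : (Fin n → ℝ) → ℝ, ContDiff ℝ ∞ f → HasCompactSupport f → tsupport f ⊆ A → ∃ c : ℝ,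
    (∫ p in A, |f p - c| ^ (2 * n / (n - 2) : ℝ) * Real.sqrt (G p).det) ^ ((n - 2) / n : ℝ) ≤
      S * ∫ p, (∑ i, ∑ j, (G p)⁻¹ i j * pd i f p * pd j f p) * Real.sqrt (G p).det

/-- The hypotheses of the theorem. -/
structure Setup (n : ℕ) (K S Lam : ℝ) (Ω : Set (Fin n → ℝ))
    (G : (Fin n → ℝ) → Matrix (Fin n) (Fin n) ℝ) (u : (Fin n → ℝ) → ℝ) (a : Fin n → ℝ)
    (r lam : ℝ) : Prop where
  hn : 3 ≤ n
  hK : 1 ≤ K
  bg : BG n K Ω G a r
  smooth : ∀ p ∈ Ω, ContDiffAt ℝ ∞ u p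
  lam0 : 0 ≤ lam
  ric : ∀ p ∈ eball a (2 * r), ∀ v : Fin n → ℝ,
    -lam * ∑ i, ∑ j, cmet u G p i j * v i * v j ≤ ∑ i, ∑ j, ricci (cmet u G) i j p * v i * v j
  sp : SobPoin (cmet u G) (eball a (2 * r)) S
  small : lam * gvol (cmet u G) (eball a (2 * r)) ^ (2 / n : ℝ) ≤ Lam

/-- Euclidean distance -/
def ed (p q : Fin n → ℝ) : ℝ := Real.sqrt (∑ i, (p i - q i) ^ 2)

end

end Pool.Agent.Helper50.CP
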