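import Pool.Agent.Helper50.CP.Defs

/-! # CP-1: Euclidean balls and the Euclidean distance `ed`

PROOF. `ed p q = ‖WithLp.toLp 2 (p - q)‖` in `EuclideanSpace ℝ (Fin n)` (or Cauchy–Schwarz). -/

namespace Pool.Agent.Helper50.CP

open scoped ContDiff Topology
open Pool.Agent.Helper49.Ric Pool.Agent.Helper73.HB Pool.Agent.Helper50.CF
  Pool.Agent.Helper50.CG MeasureTheory Filter

noncomputable section

variable {n : ℕ} {K S Lam : ℝ} {Ω : Set (Fin n → ℝ)}
  {G : (Fin n → ℝ) → Matrix (Fin n) (Fin n) ℝ} {u : (Fin n → ℝ) → ℝ} {a : Fin n → ℝ} {r lam : ℝ}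

theorem ed_nonneg (p q : Fin n → ℝ) : 0 ≤ ed p q := Real.sqrt_nonneg _

theorem ed_comm (p q : Fin n → ℝ) : ed p q = ed q p := by
  unfold ed
  congr 1
  exact Finset.sum_congr rfl fun i _ => by ring

private theorem ed_eq (p q : Fin n → ℝ) :
    ed p q = ‖(WithLp.toLp 2 p : EuclideanSpace ℝ (Fin n)) - WithLp.toLp 2 q‖ := by
  rw [EuclideanSpace.norm_eq]
  unfold ed
  congr 1
  refine Finset.sum_congr rfl fun i _ => ?_
  simp [Real.norm_eq_abs, sq_abs]

theorem ed_triangle (p q s : Fin n → ℝ) : ed p s ≤ ed p q + ed q s := by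
  rw [ed_eq, ed_eq, ed_eq]
  exact norm_sub_le_norm_sub_add_norm_sub _ _ _

theorem mem_eball {c p : Fin n → ℝ} {t : ℝ} (ht : 0 < t) : p ∈ eball c t ↔ ed p c < t := by
  unfold ed eball
  rw [Set.mem_ofPred_eq, Real.sqrt_lt' ht]

theorem mem_ecball {c p : Fin n → ℝ} {t : ℝ} (ht : 0 ≤ t) : p ∈ ecball c t ↔ ed p c ≤ t := by
  unfold ed ecball
  rw [Set.mem_ofPred_eq, Real.sqrt_le_left ht]

theorem isOpen_eball (c : Fin n → ℝ) (t : ℝ) : IsOpen (eball c t) := by
  unfold eball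
  exact isOpen_lt (by fun_prop) continuous_const

theorem isClosed_ecball (c : Fin n → ℝ) (t : ℝ) : IsClosed (ecball c t) := by
  unfold ecball
  exact isClosed_le (by fun_prop) continuous_const

theorem isCompact_ecball' (c : Fin n → ℝ) (t : ℝ) : IsCompact (ecball c t) := by
  refine Metric.isCompact_of_isClosed_isBounded (isClosed_ecball c t) ?_
  refine (Metric.isBounded_closedBall (x := c) (r := |t|)).subset ?_
  intro p hp
  rw [mem_closedBall_iff_norm, pi_norm_le_iff_of_nonneg (abs_nonneg t)]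
  intro i
  have h1 : (p i - c i) ^ 2 ≤ ∑ j, (p j - c j) ^ 2 :=
    Finset.single_le_sum (f := fun j => (p j - c j) ^ 2) (fun j _ => sq_nonneg _)
      (Finset.mem_univ i)
  have h2 : (p i - c i) ^ 2 ≤ t ^ 2 := h1.trans hp
  rw [Real.norm_eq_abs]
  exact sq_le_sq.mp h2

theorem eball_subset_ecball' (c : Fin n → ℝ) (t : ℝ) : eball c t ⊆ ecball c t := fun p hp => by
  have h1 : ∑ i, (p i - c i) ^ 2 < t ^ 2 := hp
  exact h1.le

theorem eball_sub {c y : Fin n → ℝ} {t s R : ℝ} (hs : 0 < s) (ht : 0 ≤ t)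
    (hy : y ∈ ecball c t) (h : t + s ≤ R) : eball y s ⊆ eball c R := by
  intro p hp
  rw [mem_eball hs] at hp
  rw [mem_ecball ht] at hy
  rw [mem_eball (by linarith)]
  linarith [ed_triangle p y c]

theorem ecball_sub {c y : Fin n → ℝ} {t s R : ℝ} (hs : 0 ≤ s) (ht : 0 ≤ t)
    (hy : y ∈ ecball c t) (h : t + s ≤ R) : ecball y s ⊆ ecball c R := by
  intro p hp
  rw [mem_ecball hs] at hp
  rw [mem_ecball ht] at hy
  rw [mem_ecball (by linarith)]
  linarith [ed_triangle p y c]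

/-- the smooth cutoff between two balls about `c` (translate of `exists_cutoff`) -/
theorem exists_cutoff_at : ∃ C : ℝ, 1 ≤ C ∧ ∀ (n : ℕ) (c : Fin n → ℝ) (s t : ℝ), 0 < s → s < t →
    ∃ φ : (Fin n → ℝ) → ℝ, ContDiff ℝ ∞ φ ∧ HasCompactSupport φ ∧ tsupport φ ⊆ eball c t ∧
      (∀ p, 0 ≤ φ p) ∧ (∀ p, φ p ≤ 1) ∧ (∀ p ∈ ecball c s, φ p = 1) ∧
      ∀ p, gs φ p ≤ (C / (t - s)) ^ 2 := by
  obtain ⟨C, hC, H⟩ := CF.exists_cutoff
  refine ⟨C, hC, fun n c s t hs hst => ?_⟩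
  obtain ⟨φ, h1, h2, h3, h4, h5, h6, h7⟩ := H n s t hs hst
  have hts : tsupport (fun p => φ (p - c)) ⊆ (fun p => p - c) ⁻¹' tsupport φ := by
    refine closure_minimal ?_ ((isClosed_tsupport φ).preimage (by fun_prop))
    intro p hp
    exact subset_tsupport φ hp
  refine ⟨fun p => φ (p - c), h1.comp (by fun_prop), ?_, ?_, fun p => h4 _, fun p => h5 _,
    ?_, ?_⟩
  · exact h2.comp_homeomorph (Homeomorph.subRight c)
  · intro p hp
    have h8 : p - c ∈ B n t := h3 (hts hp)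
    exact h8
  · intro p hp
    exact h6 _ hp
  · intro p
    have e1 : ∀ i, pd i (fun q => φ (q - c)) p = pd i φ (p - c) := by
      intro i
      unfold pd lineDeriv
      have e3 : ∀ y : ℝ, p + y • (Pi.single i (1 : ℝ) : Fin n → ℝ) - c =
          p - c + y • (Pi.single i (1 : ℝ) : Fin n → ℝ) := fun y => by abel
      simp only [e3]
    have e2 : gs (fun q => φ (q - c)) p = gs φ (p - c) := by
      unfold gs
      exact Finset.sum_congr rfl fun i _ => by rw [e1 i]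
    rw [e2, ← gr_sq]
    exact pow_le_pow_left₀ (gr_nonneg _ _) (h7 _) 2

end

end Pool.Agent.Helper50.CP
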