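import Pool.Agent.Helper50.CP.Vol

/-! # CP-6: logarithmic cutoffs and the decay of the volume outside a heavy ball

PROOF. Let `W j = gvol (A₀ \ eball x₀ (2^j ρ))`, `α = (n-2)/n`, `q = 2n/(n-2)`. `φᵢ` = cutoff
(`exists_cutoff_at`) with `c = x₀`, `s = 2^(k+i) ρ`, `t = 2^(k+i+1) ρ`, `i < m`, and
`F = (1/m) Σ_{i<m} φᵢ`: `F = 1` on `ecball x₀ (2^k ρ)`, `F = 0` off `eball x₀ (2^(k+m) ρ)`, whose
closure lies in `eball a (2 r)`. `∂φᵢ` vanishes off the annulus
`Dᵢ = {2^(k+i) ρ ≤ ed p x₀ < 2^(k+i+1) ρ}`; these are disjoint, so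
`ip G F F ≤ Σᵢ 1_{Dᵢ} K m⁻² (C/(2^(k+i) ρ))²` (`dual_of` with `h.bg.low`). With `inv_cmet`,
`dens_cmet`, Hölder on `Dᵢ`
(`∫_{Dᵢ} e^{(n-2)u} dens G ≤ (∫_{Dᵢ} e^{nu} dens G)^α (∫_{Dᵢ} dens G)^(2/n)`) and
`∫_{Dᵢ} dens G ≤ K^n vol(eball x₀ (2^(k+i+1) ρ)) ≤ K^n (2 2^(k+i+1) ρ)^n` (`dens_le`):
`∫ |∇F|² dv ≤ m · m⁻² C₂ (W k)^α = (C₂/m) (W k)^α`, `C₂ = C₂(n, K)`.
`h.sp` gives `c` with `(∫_{A₀} |F - c|^q dv)^α ≤ S (C₂/m) (W k)^α`. If `|c| ≥ 1/2` the left side is
`≥ (2^(-q) W (k+m))^α = (1/4) (W (k+m))^α` (`F = 0` there); otherwise `|1 - c| ≥ 1/2` on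
`eball x₀ (2^k ρ) ⊇ eball x₀ ρ`, whose volume is `≥ V/2 ≥ W (k+m)`. So
`(W (k+m))^α ≤ (4 S C₂/m) (W k)^α ≤ (1/2) (W k)^α` for `m ≥ 8 S C₂`, `m ≥ 1`. -/

namespace Pool.Agent.Helper50.CP

open scoped ContDiff Topology
open Pool.Agent.Helper49.Ric Pool.Agent.Helper73.HB Pool.Agent.Helper50.CF
  Pool.Agent.Helper50.CG MeasureTheory Filter

noncomputable section

variable {n : ℕ} {K S Lam : ℝ} {Ω : Set (Fin n → ℝ)}
  {G : (Fin n → ℝ) → Matrix (Fin n) (Fin n) ℝ} {u : (Fin n → ℝ) → ℝ} {a : Fin n → ℝ} {r lam : ℝ}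

namespace LC

/-- the annulus -/
def Ann (x₀ : Fin n → ℝ) (σ : ℝ) (l : ℕ) : Set (Fin n → ℝ) :=
  eball x₀ (2 ^ (l + 1) * σ) \ eball x₀ (2 ^ l * σ)

theorem measurable_Ann (x₀ : Fin n → ℝ) (σ : ℝ) (l : ℕ) : MeasurableSet (Ann x₀ σ l) :=
  (isOpen_eball x₀ _).measurableSet.diff (isOpen_eball x₀ _).measurableSet

theorem eball_mono' {c : Fin n → ℝ} {s t : ℝ} (hs : 0 < s) (h : s ≤ t) :
    eball c s ⊆ eball c t := by
  intro p hp
  rw [mem_eball hs] at hp
  rw [mem_eball (by linarith)]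
  linarith

theorem two_pow_mul_le {σ : ℝ} (hσ : 0 < σ) {i j : ℕ} (h : i ≤ j) : 2 ^ i * σ ≤ 2 ^ j * σ :=
  mul_le_mul_of_nonneg_right (pow_le_pow_right₀ (by norm_num) h) hσ.le

theorem two_pow_pos {σ : ℝ} (hσ : 0 < σ) (i : ℕ) : 0 < 2 ^ i * σ := by positivity

/-- the annuli are disjoint -/
theorem Ann_disj {x₀ : Fin n → ℝ} {σ : ℝ} (hσ : 0 < σ) {l l' : ℕ} {p : Fin n → ℝ}
    (hp : p ∈ Ann x₀ σ l) (hp' : p ∈ Ann x₀ σ l') : l = l' := by
  have h1 : ∀ i j : ℕ, p ∈ Ann x₀ σ i → p ∈ Ann x₀ σ j → ¬ i < j := by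
    intro i j hi hj hij
    exact hj.2 (eball_mono' (two_pow_pos hσ _) (two_pow_mul_le hσ (by omega)) hi.1)
  have h2 := h1 l l' hp hp'
  have h3 := h1 l' l hp' hp
  omega

/-- the logarithmic cutoff -/
theorem exists_F : ∃ C : ℝ, 1 ≤ C ∧ ∀ (n : ℕ) (x₀ : Fin n → ℝ) (σ : ℝ) (m : ℕ), 0 < σ → 1 ≤ m →
    ∃ F : (Fin n → ℝ) → ℝ, ContDiff ℝ ∞ F ∧ HasCompactSupport F ∧
      tsupport F ⊆ eball x₀ (2 ^ m * σ) ∧ (∀ p ∈ ecball x₀ σ, F p = 1) ∧
      ∀ p, gs F p ≤ ∑ l ∈ Finset.range m,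
        (Ann x₀ σ l).indicator (fun _ => (1 / (m : ℝ)) ^ 2 * (C / (2 ^ l * σ)) ^ 2) p := by
  obtain ⟨C, hC, H⟩ := exists_cutoff_at
  refine ⟨C, hC, fun n x₀ σ m hσ hm => ?_⟩
  have hlt : ∀ l : ℕ, 2 ^ l * σ < 2 ^ (l + 1) * σ := by
    intro l
    have := two_pow_pos hσ l
    rw [pow_succ]
    linarith
  choose φ hφ1 hφ2 hφ3 _ _ hφ6 hφ7 using fun l : ℕ =>
    H n x₀ (2 ^ l * σ) (2 ^ (l + 1) * σ) (two_pow_pos hσ l) (hlt l)
  have hm0 : (0 : ℝ) < m := by exact_mod_cast hm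
  set F : (Fin n → ℝ) → ℝ := fun p => 1 / (m : ℝ) * ∑ l ∈ Finset.range m, φ l p with hF
  set K0 : Set (Fin n → ℝ) := ⋃ l ∈ Finset.range m, tsupport (φ l) with hK0
  have hK0c : IsCompact K0 := (Finset.range m).isCompact_biUnion fun l _ => hφ2 l
  have hzero : ∀ p ∉ K0, F p = 0 := by
    intro p hp
    rw [hF]
    have : ∑ l ∈ Finset.range m, φ l p = 0 := by
      refine Finset.sum_eq_zero fun l hl => ?_
      refine image_eq_zero_of_notMem_tsupport fun h => hp ?_
      exact Set.mem_biUnion hl h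
    simp only [this, mul_zero]
  have hsm : ContDiff ℝ ∞ F := contDiff_const.mul (ContDiff.sum fun l _ => hφ1 l)
  have hK0s : K0 ⊆ eball x₀ (2 ^ m * σ) := by
    refine Set.iUnion₂_subset fun l hl => ?_
    exact (hφ3 l).trans (eball_mono' (two_pow_pos hσ _)
      (two_pow_mul_le hσ (Finset.mem_range.mp hl)))
  refine ⟨F, hsm, HasCompactSupport.intro hK0c hzero, ?_, ?_, ?_⟩
  · refine (closure_minimal ?_ hK0c.isClosed).trans hK0s
    intro p hp
    by_contra h
    exact hp (hzero p h)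
  · intro p hp
    have h1 : ∀ l ∈ Finset.range m, φ l p = 1 := by
      intro l _
      refine hφ6 l p ?_
      rw [mem_ecball (two_pow_pos hσ l).le]
      rw [mem_ecball hσ.le] at hp
      have := two_pow_mul_le hσ (Nat.zero_le l)
      rw [pow_zero, one_mul] at this
      linarith
    simp only [hF]
    rw [Finset.sum_congr rfl h1, Finset.sum_const, Finset.card_range, nsmul_eq_mul, mul_one]
    exact one_div_mul_cancel hm0.ne'
  · intro p
    -- the gradients of the cutoffs vanish off the annuli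
    have hg0 : ∀ l, p ∉ Ann x₀ σ l → ∀ i, pd i (φ l) p = 0 := by
      intro l hl i
      by_cases h1 : p ∈ eball x₀ (2 ^ (l + 1) * σ)
      · have h2 : p ∈ eball x₀ (2 ^ l * σ) := by
          by_contra h
          exact hl ⟨h1, h⟩
        have h3 : φ l =ᶠ[𝓝 p] fun _ => (1 : ℝ) := by
          filter_upwards [(isOpen_eball x₀ _).mem_nhds h2] with q hq
          exact hφ6 l q (eball_subset_ecball' _ _ hq)
        rw [pd_congr h3, pd_const]
      · exact pd_zero_off (fun h => h1 (hφ3 l h)) i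
    have hpd : ∀ i, pd i F p = 1 / (m : ℝ) * ∑ l ∈ Finset.range m, pd i (φ l) p := by
      intro i
      have hd : ∀ l ∈ Finset.range m, DifferentiableAt ℝ (φ l) p := fun l _ =>
        diff_of_smooth (hφ1 l).contDiffAt
      rw [hF, pd_const_mul _ (DifferentiableAt.fun_sum hd), pd_sum hd]
    have hnn : ∀ l ∈ Finset.range m, 0 ≤ (Ann x₀ σ l).indicator
        (fun _ => (1 / (m : ℝ)) ^ 2 * (C / (2 ^ l * σ)) ^ 2) p := fun l _ =>
      Set.indicator_nonneg (fun _ _ => by positivity) p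
    by_cases hex : ∃ l ∈ Finset.range m, p ∈ Ann x₀ σ l
    · obtain ⟨l, hl, hpl⟩ := hex
      have h1 : ∀ i, pd i F p = 1 / (m : ℝ) * pd i (φ l) p := by
        intro i
        rw [hpd i, Finset.sum_eq_single_of_mem l hl]
        intro l' _ hne
        exact hg0 l' (fun h => hne (Ann_disj hσ h hpl)) i
      have h2 : gs F p = (1 / (m : ℝ)) ^ 2 * gs (φ l) p := by
        unfold gs
        rw [Finset.mul_sum]
        refine Finset.sum_congr rfl fun i _ => ?_
        rw [h1 i]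
        ring
      have h3 : 2 ^ (l + 1) * σ - 2 ^ l * σ = 2 ^ l * σ := by ring
      have h4 := hφ7 l p
      rw [h3] at h4
      calc gs F p ≤ (1 / (m : ℝ)) ^ 2 * (C / (2 ^ l * σ)) ^ 2 := by
            rw [h2]
            exact mul_le_mul_of_nonneg_left h4 (sq_nonneg _)
        _ = (Ann x₀ σ l).indicator
            (fun _ => (1 / (m : ℝ)) ^ 2 * (C / (2 ^ l * σ)) ^ 2) p := by
            rw [Set.indicator_of_mem hpl]
        _ ≤ _ := Finset.single_le_sum (f := fun l => (Ann x₀ σ l).indicator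
            (fun _ => (1 / (m : ℝ)) ^ 2 * (C / (2 ^ l * σ)) ^ 2) p) hnn hl
    · have h1 : ∀ i, pd i F p = 0 := by
        intro i
        rw [hpd i, Finset.sum_eq_zero, mul_zero]
        intro l hl
        exact hg0 l (fun h => hex ⟨l, hl, h⟩) i
      have h2 : gs F p = 0 := by
        unfold gs
        refine Finset.sum_eq_zero fun i _ => ?_
        rw [h1 i]
        norm_num
      rw [h2]
      exact Finset.sum_nonneg hnn

theorem vol_eball_le (x : Fin n → ℝ) {t : ℝ} (ht : 0 ≤ t) :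
    (volume (eball x t)).toReal ≤ (2 * t) ^ n := by
  have hsub : eball x t ⊆ Metric.closedBall x t := by
    intro p hp
    rw [mem_closedBall_iff_norm, pi_norm_le_iff_of_nonneg ht]
    intro i
    have h1 : (p i - x i) ^ 2 ≤ ∑ j, (p j - x j) ^ 2 :=
      Finset.single_le_sum (f := fun j => (p j - x j) ^ 2) (fun j _ => sq_nonneg _)
        (Finset.mem_univ i)
    have h2 : (p i - x i) ^ 2 ≤ t ^ 2 := h1.trans (eball_subset_ecball' x t hp)
    rw [Pi.sub_apply, Real.norm_eq_abs]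
    exact abs_le_of_sq_le_sq h2 ht
  have hv : volume (Metric.closedBall x t) = ENNReal.ofReal ((2 * t) ^ n) := by
    rw [Real.volume_pi_closedBall x ht, Fintype.card_fin]
  calc (volume (eball x t)).toReal ≤ (volume (Metric.closedBall x t)).toReal :=
        ENNReal.toReal_mono (by rw [hv]; exact ENNReal.ofReal_ne_top) (measure_mono hsub)
    _ = (2 * t) ^ n := by rw [hv, ENNReal.toReal_ofReal (by positivity)]

theorem cont_dens (h : Setup n K S Lam Ω G u a r lam) :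
    ContinuousOn (dens G) (ecball a (2 * r)) := fun _ hp =>
  (smooth_dens h.bg.met (h.bg.sub hp)).continuousAt.continuousWithinAt

theorem cont_u (h : Setup n K S Lam Ω G u a r lam) :
    ContinuousOn u (ecball a (2 * r)) := fun p hp =>
  (h.smooth p (h.bg.sub hp)).continuousAt.continuousWithinAt

theorem int_dens_le (h : Setup n K S Lam Ω G u a r lam) {x : Fin n → ℝ} {t : ℝ} (ht : 0 ≤ t)
    (hsub : eball x t ⊆ eball a (2 * r)) {A : Set (Fin n → ℝ)} (hA : A ⊆ eball x t)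
    (hAm : MeasurableSet A) : ∫ p in A, dens G p ≤ K ^ n * (2 * t) ^ n := by
  have hfin : volume (eball x t) ≠ ⊤ :=
    ((measure_mono (eball_subset_ecball' x t)).trans_lt (isCompact_ecball' x t).measure_lt_top).ne
  have hfinA : volume A ≠ ⊤ := ((measure_mono hA).trans_lt (lt_top_iff_ne_top.mpr hfin)).ne
  have hK : (0 : ℝ) ≤ K ^ n := by
    have := h.hK
    positivity
  have h1 : ∫ p in A, dens G p ≤ ∫ _ in A, K ^ n := by
    refine setIntegral_mono_on (h.integrableOn (cont_dens h) (hA.trans hsub)) ?_ hAm ?_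
    · exact integrableOn_const hfinA
    · intro p hp
      exact dens_le h.bg.met (h.sub' (hsub (hA hp))) h.hK (h.bg.up p (hsub (hA hp)))
  refine h1.trans ?_
  rw [setIntegral_const, smul_eq_mul, mul_comm]
  refine mul_le_mul_of_nonneg_left ?_ hK
  calc volume.real A ≤ (volume (eball x t)).toReal := ENNReal.toReal_mono hfin (measure_mono hA)
    _ ≤ _ := vol_eball_le x ht

theorem memLp_of' {f : (Fin n → ℝ) → ℝ} {R : ℝ} (hf : ContinuousOn f (ecball a R))
    {A : Set (Fin n → ℝ)} (hA : A ⊆ eball a R) (hAm : MeasurableSet A) (q : ENNReal) :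
    MemLp f q (volume.restrict A) := by
  have hAc : A ⊆ ecball a R := hA.trans (eball_subset_ecball' _ _)
  haveI : IsFiniteMeasure (volume.restrict A) := ⟨by
    rw [Measure.restrict_apply_univ]
    exact (measure_mono hAc).trans_lt (isCompact_ecball' a R).measure_lt_top⟩
  obtain ⟨C, hC⟩ := (isCompact_ecball' a R).exists_bound_of_continuousOn hf
  refine MemLp.of_bound ((hf.mono hAc).aestronglyMeasurable hAm) C ?_
  filter_upwards [ae_restrict_mem hAm] with p hp using hC p (hAc hp)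

/-- Hölder -/
theorem hol (h : Setup n K S Lam Ω G u a r lam) {A : Set (Fin n → ℝ)}
    (hA : A ⊆ eball a (2 * r)) (hAm : MeasurableSet A) :
    ∫ p in A, Real.exp ((n - 2) * u p) * dens G p ≤
      gvol (cmet u G) A ^ ((n - 2) / n : ℝ) * (∫ p in A, dens G p) ^ (2 / n : ℝ) := by
  have hn3 : (3 : ℝ) ≤ n := by exact_mod_cast h.hn
  have hn0 : (0 : ℝ) < n := by linarith
  have hn2 : (0 : ℝ) < n - 2 := by linarith
  have hpq : ((n : ℝ) / (n - 2)).HolderConjugate ((n : ℝ) / 2) := by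
    rw [Real.holderConjugate_iff]
    constructor
    · rw [one_lt_div hn2]; linarith
    · rw [inv_div, inv_div, ← add_div]
      rw [div_eq_one_iff_eq hn0.ne']; ring
  have hpos : ∀ p ∈ A, 0 < dens G p := fun p hp => dens_pos h.bg.met (h.sub' (hA hp))
  have hd0 : ∀ p, 0 ≤ dens G p := fun p => Real.sqrt_nonneg _
  have hf1 : ContinuousOn (fun p => (Real.exp (n * u p) * dens G p) ^ ((n - 2) / n : ℝ))
      (ecball a (2 * r)) :=
    (((continuousOn_const.mul (cont_u h)).rexp).mul (cont_dens h)).rpow_const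
      fun p _ => Or.inr (by positivity)
  have hf2 : ContinuousOn (fun p => dens G p ^ (2 / n : ℝ)) (ecball a (2 * r)) :=
    (cont_dens h).rpow_const fun p _ => Or.inr (by positivity)
  have key := integral_mul_le_Lp_mul_Lq_of_nonneg (μ := volume.restrict A) hpq
    (f := fun p => (Real.exp (n * u p) * dens G p) ^ ((n - 2) / n : ℝ))
    (g := fun p => dens G p ^ (2 / n : ℝ))
    (Eventually.of_forall fun p => Real.rpow_nonneg (mul_nonneg (Real.exp_pos _).le (hd0 p)) _)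
    (Eventually.of_forall fun p => Real.rpow_nonneg (hd0 p) _)
    (memLp_of' hf1 hA hAm _) (memLp_of' hf2 hA hAm _)
  have e1 : ∀ p, ((Real.exp (n * u p) * dens G p) ^ ((n - 2) / n : ℝ)) ^ ((n : ℝ) / (n - 2)) =
      Real.exp (n * u p) * dens G p := by
    intro p
    rw [← Real.rpow_mul (mul_nonneg (Real.exp_pos _).le (hd0 p))]
    have : ((n : ℝ) - 2) / n * (n / (n - 2)) = 1 := by field_simp
    rw [this, Real.rpow_one]
  have e2 : ∀ p, (dens G p ^ (2 / n : ℝ)) ^ ((n : ℝ) / 2) = dens G p := by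
    intro p
    rw [← Real.rpow_mul (hd0 p)]
    have : (2 : ℝ) / n * (n / 2) = 1 := by field_simp
    rw [this, Real.rpow_one]
  simp only [e1, e2] at key
  have e3 : (1 : ℝ) / ((n : ℝ) / (n - 2)) = ((n : ℝ) - 2) / n := by rw [one_div_div]
  have e4 : (1 : ℝ) / ((n : ℝ) / 2) = (2 : ℝ) / n := by rw [one_div_div]
  rw [e3, e4] at key
  have e5 : gvol (cmet u G) A = ∫ p in A, Real.exp (n * u p) * dens G p := by
    unfold gvol
    exact setIntegral_congr_fun hAm fun p hp => dens_cmet h.bg.met (h.sub' (hA hp))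
  have e6 : ∫ p in A, Real.exp ((n - 2) * u p) * dens G p =
      ∫ p in A, (Real.exp (n * u p) * dens G p) ^ ((n - 2) / n : ℝ) *
        dens G p ^ (2 / n : ℝ) := by
    refine setIntegral_congr_fun hAm fun p hp => ?_
    have hp0 := hpos p hp
    rw [Real.mul_rpow (Real.exp_pos _).le hp0.le, mul_assoc, ← Real.rpow_add hp0,
      ← Real.exp_mul]
    have h1 : (n : ℝ) * u p * ((n - 2) / n) = (n - 2) * u p := by field_simp
    have h2 : ((n : ℝ) - 2) / n + 2 / n = 1 := by field_simp; ring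
    rw [h1, h2, Real.rpow_one]
  rw [e5, e6]
  exact key

/-- the energy of a function with a logarithmic gradient bound -/
theorem energy (h : Setup n K S Lam Ω G u a r lam) {C : ℝ} {x₀ : Fin n → ℝ} {σ : ℝ}
    {m : ℕ} (hx : x₀ ∈ ecball a r) (hσ : 0 < σ) (hm : 1 ≤ m) (hr : 2 ^ m * σ ≤ r)
    {F : (Fin n → ℝ) → ℝ}
    (hgs : ∀ p, gs F p ≤ ∑ l ∈ Finset.range m,
        (Ann x₀ σ l).indicator (fun _ => (1 / (m : ℝ)) ^ 2 * (C / (2 ^ l * σ)) ^ 2) p) :
    0 ≤ ∫ p, (∑ i, ∑ j, (cmet u G p)⁻¹ i j * pd i F p * pd j F p) * Real.sqrt (cmet u G p).det ∧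
    ∫ p, (∑ i, ∑ j, (cmet u G p)⁻¹ i j * pd i F p * pd j F p) * Real.sqrt (cmet u G p).det ≤
      16 * K ^ 3 * C ^ 2 / m * gvol (cmet u G) (eball a (2 * r) \ eball x₀ σ) ^
        ((n - 2) / n : ℝ) := by
  have hn3 : (3 : ℝ) ≤ n := by exact_mod_cast h.hn
  have hn0 : (0 : ℝ) < n := by linarith
  have hr0 := h.bg.pos
  have hK := h.hK
  have hK0 : (0 : ℝ) ≤ K := by linarith
  have hm0 : (0 : ℝ) < m := by exact_mod_cast hm
  have hd0 : ∀ p, 0 ≤ dens G p := fun p => Real.sqrt_nonneg _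
  -- the annuli lie in the big ball
  have hball : ∀ l ∈ Finset.range m, eball x₀ (2 ^ (l + 1) * σ) ⊆ eball a (2 * r) := by
    intro l hl
    have h1 : 2 ^ (l + 1) * σ ≤ 2 ^ m * σ := two_pow_mul_le hσ (Finset.mem_range.mp hl)
    have h2 : 2 ^ (l + 1) * σ ≤ r := h1.trans hr
    exact eball_sub (two_pow_pos hσ _) hr0.le hx (by linarith)
  have hAnn : ∀ l ∈ Finset.range m, Ann x₀ σ l ⊆ eball a (2 * r) := fun l hl =>
    Set.sdiff_subset.trans (hball l hl)
  set Q : (Fin n → ℝ) → ℝ := fun p =>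
    (∑ i, ∑ j, (cmet u G p)⁻¹ i j * pd i F p * pd j F p) * Real.sqrt (cmet u G p).det with hQ
  -- inside the big ball
  have hin : ∀ p ∈ eball a (2 * r), Q p =
      ip G F F p * (Real.exp ((n - 2) * u p) * dens G p) := by
    intro p hp
    have hpΩ := h.sub' hp
    simp only [hQ]
    rw [inv_cmet h.bg.met hpΩ, dens_cmet h.bg.met hpΩ]
    have h1 : ∑ i, ∑ j, (Real.exp (-(2 * u p)) • (G p)⁻¹) i j * pd i F p * pd j F p =
        Real.exp (-(2 * u p)) * ip G F F p := by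
      unfold ip
      rw [Finset.mul_sum]
      refine Finset.sum_congr rfl fun i _ => ?_
      rw [Finset.mul_sum]
      refine Finset.sum_congr rfl fun j _ => ?_
      rw [Matrix.smul_apply, smul_eq_mul]
      ring
    rw [h1]
    have h2 : Real.exp ((n - 2) * u p) = Real.exp (-(2 * u p)) * Real.exp (n * u p) := by
      rw [← Real.exp_add]
      congr 1
      ring
    rw [h2]
    ring
  have hout : ∀ p ∉ eball a (2 * r), Q p = 0 := by
    intro p hp
    have h1 : gs F p ≤ 0 := by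
      refine (hgs p).trans (le_of_eq ?_)
      refine Finset.sum_eq_zero fun l hl => ?_
      exact Set.indicator_of_notMem (fun h' => hp (hAnn l hl h')) _
    have h2 : ∀ i, pd i F p = 0 := by
      intro i
      have h3 : pd i F p ^ 2 ≤ gs F p :=
        Finset.single_le_sum (f := fun i => pd i F p ^ 2) (fun j _ => sq_nonneg _)
          (Finset.mem_univ i)
      have h4 : pd i F p ^ 2 = 0 := le_antisymm (h3.trans h1) (sq_nonneg _)
      exact pow_eq_zero_iff (two_ne_zero) |>.mp h4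
    simp only [hQ]
    rw [Finset.sum_eq_zero, zero_mul]
    intro i _
    refine Finset.sum_eq_zero fun j _ => ?_
    rw [h2 j, mul_zero]
  have hQ0 : ∀ p, 0 ≤ Q p := by
    intro p
    by_cases hp : p ∈ eball a (2 * r)
    · rw [hin p hp]
      exact mul_nonneg (ip_nonneg h.bg.met (h.sub' hp)) (mul_nonneg (Real.exp_pos _).le (hd0 p))
    · rw [hout p hp]
  set c : ℕ → ℝ := fun l => K * ((1 / (m : ℝ)) ^ 2 * (C / (2 ^ l * σ)) ^ 2) with hc
  have hc0 : ∀ l, 0 ≤ c l := fun l => by positivity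
  set g : (Fin n → ℝ) → ℝ := fun p => Real.exp ((n - 2) * u p) * dens G p with hg
  have hgc : ContinuousOn g (ecball a (2 * r)) :=
    ((continuousOn_const.mul (cont_u h)).rexp).mul (cont_dens h)
  have hg0 : ∀ p, 0 ≤ g p := fun p => mul_nonneg (Real.exp_pos _).le (hd0 p)
  have hQle : ∀ p, Q p ≤ ∑ l ∈ Finset.range m, (Ann x₀ σ l).indicator (fun p => c l * g p) p := by
    intro p
    by_cases hp : p ∈ eball a (2 * r)
    · rw [hin p hp]
      have h1 := dual_of h.bg.met (h.sub' hp) hK0 (h.bg.low p hp) F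
      have h2 : ip G F F p ≤ ∑ l ∈ Finset.range m, (Ann x₀ σ l).indicator (fun _ => c l) p := by
        refine h1.trans ((mul_le_mul_of_nonneg_left (hgs p) hK0).trans (le_of_eq ?_))
        rw [Finset.mul_sum]
        refine Finset.sum_congr rfl fun l _ => ?_
        by_cases hl : p ∈ Ann x₀ σ l
        · rw [Set.indicator_of_mem hl, Set.indicator_of_mem hl]
        · rw [Set.indicator_of_notMem hl, Set.indicator_of_notMem hl, mul_zero]
      refine (mul_le_mul_of_nonneg_right h2 (hg0 p)).trans (le_of_eq ?_)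
      rw [Finset.sum_mul]
      refine Finset.sum_congr rfl fun l _ => ?_
      by_cases hl : p ∈ Ann x₀ σ l
      · rw [Set.indicator_of_mem hl, Set.indicator_of_mem hl]
      · rw [Set.indicator_of_notMem hl, Set.indicator_of_notMem hl, zero_mul]
    · rw [hout p hp]
      refine Finset.sum_nonneg fun l _ => ?_
      exact Set.indicator_nonneg (fun q _ => mul_nonneg (hc0 l) (hg0 q)) p
  have hint : ∀ l ∈ Finset.range m, Integrable ((Ann x₀ σ l).indicator (fun p => c l * g p)) := by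
    intro l hl
    rw [integrable_indicator_iff (measurable_Ann x₀ σ l)]
    exact h.integrableOn (continuousOn_const.mul hgc) (hAnn l hl)
  refine ⟨integral_nonneg hQ0, ?_⟩
  set W := gvol (cmet u G) (eball a (2 * r) \ eball x₀ σ) with hW
  have hW0 : 0 ≤ W := gvol_nonneg _ _
  have hα : (0 : ℝ) ≤ (n - 2) / n := by
    apply div_nonneg <;> linarith
  calc ∫ p, Q p ≤ ∫ p, ∑ l ∈ Finset.range m,
        (Ann x₀ σ l).indicator (fun p => c l * g p) p :=
        integral_mono_of_nonneg (Eventually.of_forall hQ0)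
          (integrable_finsetSum _ hint) (Eventually.of_forall hQle)
    _ = ∑ l ∈ Finset.range m, ∫ p, (Ann x₀ σ l).indicator (fun p => c l * g p) p :=
        integral_finsetSum _ hint
    _ = ∑ l ∈ Finset.range m, c l * ∫ p in Ann x₀ σ l, g p := by
        refine Finset.sum_congr rfl fun l _ => ?_
        rw [integral_indicator (measurable_Ann x₀ σ l), integral_const_mul]
    _ ≤ ∑ _l ∈ Finset.range m, 16 * K ^ 3 * C ^ 2 * (1 / (m : ℝ)) ^ 2 *
          W ^ ((n - 2) / n : ℝ) := by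
        refine Finset.sum_le_sum fun l hl => ?_
        have hs0 := two_pow_pos hσ l
        have h1 := hol h (hAnn l hl) (measurable_Ann x₀ σ l)
        have h2 : gvol (cmet u G) (Ann x₀ σ l) ≤ W := by
          refine h.vol_mono ?_ Set.sdiff_subset
            ((isOpen_eball a _).measurableSet.diff (isOpen_eball x₀ _).measurableSet)
          intro p hp
          refine ⟨hAnn l hl hp, fun h' => hp.2 ?_⟩
          refine eball_mono' hσ ?_ h'
          have := two_pow_mul_le hσ (Nat.zero_le l)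
          rwa [pow_zero, one_mul] at this
        have h3 : gvol (cmet u G) (Ann x₀ σ l) ^ ((n - 2) / n : ℝ) ≤ W ^ ((n - 2) / n : ℝ) :=
          Real.rpow_le_rpow (gvol_nonneg _ _) h2 hα
        have h4 : (∫ p in Ann x₀ σ l, dens G p) ^ (2 / n : ℝ) ≤ 16 * K ^ 2 * (2 ^ l * σ) ^ 2 := by
          have h5 := int_dens_le h (two_pow_pos hσ (l + 1)).le (hball l hl)
            (A := Ann x₀ σ l) Set.sdiff_subset (measurable_Ann x₀ σ l)
          have h6 : 0 ≤ ∫ p in Ann x₀ σ l, dens G p := integral_nonneg fun p => hd0 p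
          have h7 : K ^ n * (2 * (2 ^ (l + 1) * σ)) ^ n = (4 * K * (2 ^ l * σ)) ^ n := by
            rw [← mul_pow]
            congr 1
            ring
          rw [h7] at h5
          have h8 : 0 ≤ 4 * K * (2 ^ l * σ) := by positivity
          calc (∫ p in Ann x₀ σ l, dens G p) ^ (2 / n : ℝ) ≤
                ((4 * K * (2 ^ l * σ)) ^ n) ^ (2 / n : ℝ) :=
                Real.rpow_le_rpow h6 h5 (by positivity)
            _ = (4 * K * (2 ^ l * σ)) ^ 2 := by
                rw [← Real.rpow_natCast (4 * K * (2 ^ l * σ)) n, ← Real.rpow_mul h8]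
                have : (n : ℝ) * (2 / n) = 2 := by field_simp
                rw [this]
                exact_mod_cast Real.rpow_natCast (4 * K * (2 ^ l * σ)) 2
            _ = 16 * K ^ 2 * (2 ^ l * σ) ^ 2 := by ring
        have hWα : 0 ≤ W ^ ((n - 2) / n : ℝ) := Real.rpow_nonneg hW0 _
        have h9 : ∫ p in Ann x₀ σ l, g p ≤
            W ^ ((n - 2) / n : ℝ) * (16 * K ^ 2 * (2 ^ l * σ) ^ 2) := by
          refine h1.trans ?_
          refine mul_le_mul h3 h4 (Real.rpow_nonneg (integral_nonneg fun p => hd0 p) _) hWα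
        refine (mul_le_mul_of_nonneg_left h9 (hc0 l)).trans (le_of_eq ?_)
        simp only [hc]
        have hne : (2 ^ l * σ : ℝ) ≠ 0 := hs0.ne'
        rw [div_pow]
        field_simp
    _ = 16 * K ^ 3 * C ^ 2 / m * W ^ ((n - 2) / n : ℝ) := by
        rw [Finset.sum_const, Finset.card_range, nsmul_eq_mul]
        field_simp

/-- lower bound of the left side of the Sobolev–Poincaré inequality -/
theorem lower_sp (h : Setup n K S Lam Ω G u a r lam) {F : (Fin n → ℝ) → ℝ}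
    (hF : ContDiff ℝ ∞ F) {c : ℝ} {E : Set (Fin n → ℝ)} (hE : E ⊆ eball a (2 * r))
    (hEm : MeasurableSet E) (hc : ∀ p ∈ E, 1 / 2 ≤ |F p - c|) {W : ℝ} (hW0 : 0 ≤ W)
    (hW : W ≤ gvol (cmet u G) E) :
    1 / 4 * W ^ ((n - 2) / n : ℝ) ≤ (∫ p in eball a (2 * r), |F p - c| ^
      (2 * n / (n - 2) : ℝ) * Real.sqrt (cmet u G p).det) ^ ((n - 2) / n : ℝ) := by
  have hn3 : (3 : ℝ) ≤ n := by exact_mod_cast h.hn
  have hn0 : (0 : ℝ) < n := by linarith
  have hn2 : (0 : ℝ) < n - 2 := by linarith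
  have hα : (0 : ℝ) ≤ (n - 2) / n := by positivity
  have hq : (0 : ℝ) ≤ 2 * n / (n - 2) := by positivity
  have hcont : ContinuousOn (fun p => |F p - c| ^ (2 * n / (n - 2) : ℝ) *
      Real.sqrt (cmet u G p).det) (ecball a (2 * r)) := by
    refine ContinuousOn.mul ?_ h.dens_cont
    refine ContinuousOn.rpow_const ?_ fun p _ => Or.inr hq
    exact ((hF.continuous.sub continuous_const).abs).continuousOn
  have hnn : ∀ p, 0 ≤ |F p - c| ^ (2 * n / (n - 2) : ℝ) * Real.sqrt (cmet u G p).det := fun p =>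
    mul_nonneg (Real.rpow_nonneg (abs_nonneg _) _) (Real.sqrt_nonneg _)
  have h1 : (1 / 2 : ℝ) ^ (2 * n / (n - 2) : ℝ) * W ≤ ∫ p in eball a (2 * r), |F p - c| ^
      (2 * n / (n - 2) : ℝ) * Real.sqrt (cmet u G p).det := by
    calc (1 / 2 : ℝ) ^ (2 * n / (n - 2) : ℝ) * W ≤
          (1 / 2 : ℝ) ^ (2 * n / (n - 2) : ℝ) * gvol (cmet u G) E :=
          mul_le_mul_of_nonneg_left hW (by positivity)
      _ = ∫ p in E, (1 / 2 : ℝ) ^ (2 * n / (n - 2) : ℝ) * Real.sqrt (cmet u G p).det := by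
          rw [integral_const_mul]
          rfl
      _ ≤ ∫ p in E, |F p - c| ^ (2 * n / (n - 2) : ℝ) * Real.sqrt (cmet u G p).det := by
          refine setIntegral_mono_on (h.integrableOn (continuousOn_const.mul h.dens_cont) hE)
            (h.integrableOn hcont hE) hEm fun p hp => ?_
          refine mul_le_mul_of_nonneg_right ?_ (Real.sqrt_nonneg _)
          exact Real.rpow_le_rpow (by norm_num) (hc p hp) hq
      _ ≤ _ := setIntegral_mono_set (h.integrableOn hcont subset_rfl)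
          (Eventually.of_forall hnn) (Eventually.of_forall hE)
  have h2 : ((1 / 2 : ℝ) ^ (2 * n / (n - 2) : ℝ) * W) ^ ((n - 2) / n : ℝ) =
      1 / 4 * W ^ ((n - 2) / n : ℝ) := by
    rw [Real.mul_rpow (by positivity) hW0, ← Real.rpow_mul (by norm_num)]
    have h3 : (2 * n / (n - 2) : ℝ) * ((n - 2) / n) = 2 := by field_simp
    rw [h3]
    congr 1
    norm_num
  rw [← h2]
  exact Real.rpow_le_rpow (by positivity) h1 hα

end LC

open LC in
theorem exists_decayW (n : ℕ) (K S Lam : ℝ) : ∃ m : ℕ, 1 ≤ m ∧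
    ∀ {Ω : Set (Fin n → ℝ)} {G : (Fin n → ℝ) → Matrix (Fin n) (Fin n) ℝ} {u : (Fin n → ℝ) → ℝ}
      {a : Fin n → ℝ} {r lam : ℝ}, Setup n K S Lam Ω G u a r lam →
      ∀ (x₀ : Fin n → ℝ) (ρ : ℝ), x₀ ∈ ecball a r → 0 < ρ →
        1 / 2 * gvol (cmet u G) (eball a (2 * r)) ≤ gvol (cmet u G) (eball x₀ ρ) →
        ∀ k : ℕ, 2 ^ (k + m) * ρ ≤ r →
          gvol (cmet u G) (eball a (2 * r) \ eball x₀ (2 ^ (k + m) * ρ)) ^ ((n - 2) / n : ℝ) ≤
            1 / 2 * gvol (cmet u G) (eball a (2 * r) \ eball x₀ (2 ^ k * ρ)) ^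
              ((n - 2) / n : ℝ) := by
  obtain ⟨C, hC, HF⟩ := exists_F
  set Sp : ℝ := max S 0 with hSp
  have hSp0 : 0 ≤ Sp := le_max_right _ _
  obtain ⟨m0, hm0⟩ := exists_nat_ge (8 * Sp * (16 * K ^ 3 * C ^ 2))
  refine ⟨m0 + 1, by omega, ?_⟩
  intro Ω G u a r lam h x₀ ρ hx₀ hρ hheavy k hk
  set m : ℕ := m0 + 1 with hm
  have hmpos : (0 : ℝ) < m := by
    rw [hm]
    positivity
  have hmge : 8 * Sp * (16 * K ^ 3 * C ^ 2) ≤ m := by
    refine hm0.trans ?_
    rw [hm]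
    push_cast
    linarith
  have hr := h.bg.pos
  have hK := h.hK
  have hσ : 0 < 2 ^ k * ρ := two_pow_pos hρ k
  have he : 2 ^ m * (2 ^ k * ρ) = 2 ^ (k + m) * ρ := by rw [pow_add]; ring
  obtain ⟨F, hF1, hF2, hF3, hF4, hF5⟩ := HF n x₀ (2 ^ k * ρ) m hσ (by omega)
  have hsub : eball x₀ (2 ^ (k + m) * ρ) ⊆ eball a (2 * r) :=
    eball_sub (two_pow_pos hρ _) hr.le hx₀ (by linarith)
  obtain ⟨c, hc⟩ := h.sp F hF1 hF2 (by rw [he] at hF3; exact hF3.trans hsub)
  obtain ⟨hen0, hen⟩ := energy h (C := C) hx₀ hσ (by omega : 1 ≤ m) (by rw [he]; exact hk) hF5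
  set W1 := gvol (cmet u G) (eball a (2 * r) \ eball x₀ (2 ^ (k + m) * ρ)) with hW1
  set W0 := gvol (cmet u G) (eball a (2 * r) \ eball x₀ (2 ^ k * ρ)) with hW0
  have hW1n : 0 ≤ W1 := gvol_nonneg _ _
  have hW0n : 0 ≤ W0 := gvol_nonneg _ _
  have hρ1 : ρ ≤ 2 ^ k * ρ := by
    have := two_pow_mul_le hρ (Nat.zero_le k)
    rwa [pow_zero, one_mul] at this
  have hρ2 : 2 ^ k * ρ ≤ 2 ^ (k + m) * ρ := two_pow_mul_le hρ (by omega)
  -- lower bound
  have hlow : 1 / 4 * W1 ^ ((n - 2) / n : ℝ) ≤ (∫ p in eball a (2 * r), |F p - c| ^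
      (2 * n / (n - 2) : ℝ) * Real.sqrt (cmet u G p).det) ^ ((n - 2) / n : ℝ) := by
    rcases le_or_gt (1 / 2) |c| with hc2 | hc2
    · refine lower_sp h hF1 (E := eball a (2 * r) \ eball x₀ (2 ^ (k + m) * ρ))
        Set.sdiff_subset ((isOpen_eball a _).measurableSet.diff
          (isOpen_eball x₀ _).measurableSet) ?_ hW1n le_rfl
      intro p hp
      have h1 : F p = 0 := by
        refine image_eq_zero_of_notMem_tsupport fun h' => hp.2 ?_
        rw [← he]
        exact hF3 h'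
      rw [h1, zero_sub, abs_neg]
      exact hc2
    · refine lower_sp h hF1 (E := eball x₀ ρ)
        ((eball_mono' hρ (hρ1.trans hρ2)).trans hsub)
        (isOpen_eball x₀ _).measurableSet ?_ hW1n ?_
      · intro p hp
        have h1 : F p = 1 := hF4 p (eball_subset_ecball' _ _ (eball_mono' hρ hρ1 hp))
        rw [h1]
        have h2 : (1 : ℝ) ≤ |1 - c| + |c| := by
          have := abs_add_le (1 - c) c
          rw [sub_add_cancel, abs_one] at this
          exact this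
        linarith
      · rw [hW1, h.vol_diff hsub (isOpen_eball x₀ _).measurableSet]
        have h3 : gvol (cmet u G) (eball x₀ ρ) ≤
            gvol (cmet u G) (eball x₀ (2 ^ (k + m) * ρ)) :=
          h.vol_mono (eball_mono' hρ (hρ1.trans hρ2)) hsub (isOpen_eball x₀ _).measurableSet
        linarith
  -- upper bound
  have hup : S * ∫ p, (∑ i, ∑ j, (cmet u G p)⁻¹ i j * pd i F p * pd j F p) *
      Real.sqrt (cmet u G p).det ≤
      Sp * (16 * K ^ 3 * C ^ 2 / m * W0 ^ ((n - 2) / n : ℝ)) :=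
    (mul_le_mul_of_nonneg_right (le_max_left S 0) hen0).trans
      (mul_le_mul_of_nonneg_left hen hSp0)
  have hfin := (hlow.trans hc).trans hup
  have hWα : 0 ≤ W0 ^ ((n - 2) / n : ℝ) := Real.rpow_nonneg hW0n _
  have h5 : Sp * (16 * K ^ 3 * C ^ 2 / m * W0 ^ ((n - 2) / n : ℝ)) ≤
      1 / 8 * W0 ^ ((n - 2) / n : ℝ) := by
    have h6 : Sp * (16 * K ^ 3 * C ^ 2 / m * W0 ^ ((n - 2) / n : ℝ)) =
        (8 * Sp * (16 * K ^ 3 * C ^ 2)) / m * (1 / 8 * W0 ^ ((n - 2) / n : ℝ)) := by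
      field_simp
    rw [h6]
    have h7 : (8 * Sp * (16 * K ^ 3 * C ^ 2)) / m ≤ 1 := by
      rw [div_le_one hmpos]
      exact hmge
    calc (8 * Sp * (16 * K ^ 3 * C ^ 2)) / m * (1 / 8 * W0 ^ ((n - 2) / n : ℝ)) ≤
          1 * (1 / 8 * W0 ^ ((n - 2) / n : ℝ)) :=
          mul_le_mul_of_nonneg_right h7 (by positivity)
      _ = _ := one_mul _
  linarith

end

end Pool.Agent.Helper50.CP
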