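import Pool.Agent.Helper50.CP.Sum

/-! # Assembly: the theorem under a Sobolev–Poincaré inequality

With `f = (scal + n lam) sqrt det ≥ 0`: if no ball of radius `r/8` has half of the volume, cover
`eball a r` by `N` balls of radius `r/16`. Otherwise let `eball x₀ ρ`, `ρ = r/8/2^j` be a heavy ball
at the smallest dyadic scale; cover `D 0 = eball a r ∩ eball x₀ ρ` and the annuli
`D (k+1) \ D k`, `D k = eball a r ∩ eball x₀ (2^k ρ)`, `k ≤ j + 3`, by `N` balls each, the radius
being an eighth of the scale, and sum the geometric series. -/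

namespace Pool.Agent.Helper50.CP

open scoped ContDiff Topology
open Pool.Agent.Helper49.Ric Pool.Agent.Helper73.HB Pool.Agent.Helper50.CF
  Pool.Agent.Helper50.CG MeasureTheory Filter

noncomputable section

variable {n : ℕ} {K S Lam : ℝ} {Ω : Set (Fin n → ℝ)}
  {G : (Fin n → ℝ) → Matrix (Fin n) (Fin n) ℝ} {u : (Fin n → ℝ) → ℝ} {a : Fin n → ℝ} {r lam : ℝ}

theorem alpha_nonneg (h : Setup n K S Lam Ω G u a r lam) : (0 : ℝ) ≤ ((n - 2) / n : ℝ) := by
  have h1 : (3 : ℝ) ≤ n := by exact_mod_cast h.hn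
  apply div_nonneg <;> linarith

/-- the integral over a set covered by good balls of radius `t / 8` with centres in the set -/
theorem piece {N : ℕ} (hN : ∀ (x₀ : Fin n → ℝ) (t : ℝ), 0 < t →
      ∀ E : Set (Fin n → ℝ), E ⊆ ecball x₀ (2 * t) →
        ∃ F : Finset (Fin n → ℝ), (∀ y ∈ F, y ∈ E) ∧ F.card ≤ N ∧
          ∀ x ∈ E, ∃ y ∈ F, x ∈ eball y (t / 8))
    {C₁ : ℝ} (hC₁ : 0 ≤ C₁) (h : Setup n K S Lam Ω G u a r lam)
    (hball : ∀ (y : Fin n → ℝ) (s : ℝ), y ∈ ecball a r → 0 < s → 2 * s ≤ r →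
        gvol (cmet u G) (eball y (2 * s)) ≤ 1 / 2 * gvol (cmet u G) (eball a (2 * r)) →
        ∫ p in eball y s, (scal (cmet u G) p + n * lam) * Real.sqrt (cmet u G p).det ≤
          C₁ * gvol (cmet u G) (eball y (2 * s)) ^ ((n - 2) / n : ℝ))
    {x₀ : Fin n → ℝ} {t : ℝ} (ht : 0 < t) (htr : t ≤ 4 * r) {E : Set (Fin n → ℝ)}
    (hE : E ⊆ ecball x₀ (2 * t)) (hEa : E ⊆ eball a r) (hEm : MeasurableSet E) {W : ℝ}
    (hW : ∀ y ∈ E, gvol (cmet u G) (eball y (t / 4)) ≤ W)
    (hW2 : ∀ y ∈ E, gvol (cmet u G) (eball y (t / 4)) ≤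
      1 / 2 * gvol (cmet u G) (eball a (2 * r))) (hW0 : 0 ≤ W) :
    ∫ p in E, (scal (cmet u G) p + n * lam) * Real.sqrt (cmet u G p).det ≤
      N * (C₁ * W ^ ((n - 2) / n : ℝ)) := by
  have hr := h.bg.pos
  have hα := alpha_nonneg h
  obtain ⟨F, hF1, hF2, hF3⟩ := hN x₀ t ht E hE
  have hya : ∀ y ∈ F, y ∈ ecball a r := fun y hy =>
    eball_subset_ecball' a r (hEa (hF1 y hy))
  refine cover_int h (hEa.trans ?_) hEm hF2 (s := t / 8) (by positivity) ?_ hF3 ?_
  · intro p hp
    rw [mem_eball hr] at hp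
    rw [mem_eball (by linarith)]
    linarith
  · intro y hy
    exact eball_sub (by linarith) hr.le (hya y hy) (by linarith)
  · intro y hy
    have e1 : 2 * (t / 8) = t / 4 := by ring
    have h1 := hball y (t / 8) (hya y hy) (by linarith) (by linarith)
      (by rw [e1]; exact hW2 y (hF1 y hy))
    rw [e1] at h1
    refine h1.trans ?_
    refine mul_le_mul_of_nonneg_left ?_ hC₁
    exact Real.rpow_le_rpow (gvol_nonneg _ _) (hW y (hF1 y hy)) hα

theorem main_sp {n : ℕ} (K S Lam : ℝ) : ∃ C : ℝ,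
    ∀ {Ω : Set (Fin n → ℝ)} {G : (Fin n → ℝ) → Matrix (Fin n) (Fin n) ℝ} {u : (Fin n → ℝ) → ℝ}
      {a : Fin n → ℝ} {r lam : ℝ}, Setup n K S Lam Ω G u a r lam →
      ∫ p in eball a r, scal (cmet u G) p * Real.sqrt (cmet u G p).det ≤
        C * gvol (cmet u G) (eball a (2 * r)) ^ ((n - 2) / n : ℝ) := by
  obtain ⟨C₁, hC₁, H1⟩ := exists_ball n K S Lam
  obtain ⟨m, hm, H2⟩ := exists_decayW n K S Lam
  obtain ⟨N, HN⟩ := exists_cover n
  refine ⟨N * C₁ * (2 + 2 * m), ?_⟩
  intro Ω G u a r lam h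
  have hr := h.bg.pos
  have hα := alpha_nonneg h
  set α : ℝ := ((n - 2) / n : ℝ) with hαd
  set V := gvol (cmet u G) (eball a (2 * r)) with hV
  have hV0 : 0 < V := h.vol_pos
  have hVα : 0 ≤ V ^ α := Real.rpow_nonneg hV0.le _
  have hrr : eball a r ⊆ eball a (2 * r) := by
    intro p hp
    rw [mem_eball hr] at hp
    rw [mem_eball (by linarith)]
    linarith
  have hm0 : MeasurableSet (eball a r) := (isOpen_eball a r).measurableSet
  have hm2 : MeasurableSet (eball a (2 * r)) := (isOpen_eball a (2 * r)).measurableSet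
  set f : (Fin n → ℝ) → ℝ :=
    fun p => (scal (cmet u G) p + n * lam) * Real.sqrt (cmet u G p).det with hf
  have hfi : ∀ {A : Set (Fin n → ℝ)}, A ⊆ eball a (2 * r) → IntegrableOn f A := fun hA =>
    h.integrableOn h.sc_cont hA
  -- from `scal` to `f`
  have hstep : ∫ p in eball a r, scal (cmet u G) p * Real.sqrt (cmet u G p).det ≤
      ∫ p in eball a r, f p := by
    have hd := h.integrableOn h.dens_cont hrr
    have h1 : IntegrableOn (fun p => scal (cmet u G) p * Real.sqrt (cmet u G p).det)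
        (eball a r) := by
      have h2 := (hfi hrr).sub (hd.const_mul (n * lam))
      refine h2.congr (Eventually.of_forall fun p => ?_)
      simp only [hf, Pi.sub_apply]
      ring
    refine setIntegral_mono_on h1 (hfi hrr) hm0 fun p _ => ?_
    have h3 : 0 ≤ (n : ℝ) * lam * Real.sqrt (cmet u G p).det :=
      mul_nonneg (mul_nonneg (Nat.cast_nonneg n) h.lam0) (Real.sqrt_nonneg _)
    simp only [hf]
    linarith
  refine hstep.trans ?_
  have hball := fun y s hy hs h2 hv => H1 h y s hy hs h2 hv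
  have hVs : ∀ (y : Fin n → ℝ) (s : ℝ), y ∈ ecball a r → 0 < s → s ≤ r →
      gvol (cmet u G) (eball y s) ≤ V := fun y s hy hs hsr =>
    h.vol_mono (eball_sub hs hr.le hy (by linarith)) subset_rfl hm2
  have hNC : 0 ≤ (N : ℝ) * C₁ := mul_nonneg (Nat.cast_nonneg N) hC₁
  rcases conc h with hA | ⟨j, x₀, hx₀, hheavy, hlight⟩
  · -- no concentration
    have h1 := piece HN hC₁ h hball (x₀ := a) (t := r / 2) (by linarith) (by linarith)
      (E := eball a r) (by
        have e1 : 2 * (r / 2) = r := by ring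
        rw [e1]; exact eball_subset_ecball' a r) subset_rfl hm0 (W := V)
      (fun y hy => hVs y _ (eball_subset_ecball' a r hy) (by linarith) (by linarith))
      (fun y hy => by
        have e1 : r / 2 / 4 = r / 8 := by ring
        rw [e1]
        exact (hA y (eball_subset_ecball' a r hy)).le) hV0.le
    refine h1.trans ?_
    have h2 : (N : ℝ) * (C₁ * V ^ α) = N * C₁ * V ^ α := by ring
    rw [h2]
    refine mul_le_mul_of_nonneg_right ?_ hVα
    have h3 : (0 : ℝ) ≤ m := Nat.cast_nonneg m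
    nlinarith
  · -- concentration at `x₀` at the scale `ρ`
    set ρ : ℝ := r / 8 / 2 ^ j with hρ
    have h2j : (0 : ℝ) < 2 ^ j := by positivity
    have hρ0 : 0 < ρ := by positivity
    have hρr : 2 ^ j * ρ = r / 8 := by
      rw [hρ]; field_simp
    have hp0 : ∀ k : ℕ, (0 : ℝ) < 2 ^ k := fun k => by positivity
    have hscale : ∀ k : ℕ, k ≤ j + 4 → 2 ^ k * ρ ≤ 2 * r := by
      intro k hk
      have h1 : (2 : ℝ) ^ k ≤ 2 ^ (j + 4) := pow_le_pow_right₀ (by norm_num) hk
      have h2 : (2 : ℝ) ^ (j + 4) * ρ = 2 * r := by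
        rw [pow_add, mul_assoc, mul_comm (2 ^ 4 : ℝ) ρ, ← mul_assoc, hρr]; ring
      calc 2 ^ k * ρ ≤ 2 ^ (j + 4) * ρ := mul_le_mul_of_nonneg_right h1 hρ0.le
        _ = 2 * r := h2
    have hρr2 : ρ ≤ r / 8 := by
      have h1 : (1 : ℝ) ≤ 2 ^ j := one_le_pow₀ (by norm_num)
      nlinarith
    have e2 : r / 8 / 2 ^ (j + 1) = ρ / 2 := by
      rw [hρ, pow_succ]; field_simp
    rw [e2] at hlight
    -- light balls
    have hl4 : ∀ y ∈ ecball a r, gvol (cmet u G) (eball y (ρ / 4)) ≤ 1 / 2 * V := by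
      intro y hy
      refine le_trans ?_ (hlight y hy).le
      refine h.vol_mono ?_ (eball_sub (by linarith) hr.le hy (by linarith))
        (isOpen_eball y _).measurableSet
      intro p hp
      rw [mem_eball (by linarith)] at hp ⊢
      linarith
    set D : ℕ → Set (Fin n → ℝ) := fun k => eball a r ∩ eball x₀ (2 ^ k * ρ) with hD
    have hDm : ∀ k, MeasurableSet (D k) := fun k =>
      hm0.inter (isOpen_eball x₀ _).measurableSet
    have hDa : ∀ k, D k ⊆ eball a r := fun k => Set.inter_subset_left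
    set w : ℕ → ℝ := fun k =>
      gvol (cmet u G) (eball a (2 * r) \ eball x₀ (2 ^ k * ρ)) ^ α with hw
    have hWnn : ∀ k, 0 ≤ gvol (cmet u G) (eball a (2 * r) \ eball x₀ (2 ^ k * ρ)) := fun k =>
      gvol_nonneg _ _
    have hpow : ∀ k : ℕ, 2 ^ k * ρ ≤ 2 ^ (k + 1) * ρ := fun k => by
      rw [pow_succ]
      nlinarith [mul_pos (hp0 k) hρ0]
    have hWmono : ∀ k, gvol (cmet u G) (eball a (2 * r) \ eball x₀ (2 ^ (k + 1) * ρ)) ≤
        gvol (cmet u G) (eball a (2 * r) \ eball x₀ (2 ^ k * ρ)) := by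
      intro k
      refine h.vol_mono ?_ Set.sdiff_subset (hm2.diff (isOpen_eball x₀ _).measurableSet)
      refine Set.sdiff_subset_sdiff_right ?_
      intro p hp
      rw [mem_eball (mul_pos (hp0 _) hρ0)] at hp ⊢
      exact lt_of_lt_of_le hp (hpow k)
    have hWhalf : ∀ k, gvol (cmet u G) (eball a (2 * r) \ eball x₀ (2 ^ k * ρ)) ≤
        1 / 2 * V := by
      have h0 : gvol (cmet u G) (eball a (2 * r) \ eball x₀ (2 ^ 0 * ρ)) ≤ 1 / 2 * V := by
        have hsub : eball x₀ (2 ^ 0 * ρ) ⊆ eball a (2 * r) := by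
          rw [pow_zero, one_mul]
          exact eball_sub hρ0 hr.le hx₀ (by linarith)
        rw [h.vol_diff hsub (isOpen_eball x₀ _).measurableSet, pow_zero, one_mul]
        linarith
      intro k
      induction k with
      | zero => exact h0
      | succ k ih => exact (hWmono k).trans ih
    -- the pieces
    have hD0 : ∫ p in D 0, f p ≤ N * (C₁ * V ^ α) := by
      refine piece HN hC₁ h hball (x₀ := x₀) (t := ρ) hρ0 (by linarith) (E := D 0) ?_ (hDa 0)
        (hDm 0) (W := V) ?_ ?_ hV0.le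
      · intro p hp
        have h1 : p ∈ eball x₀ (2 ^ 0 * ρ) := hp.2
        rw [pow_zero, one_mul, mem_eball hρ0] at h1
        rw [mem_ecball (by linarith)]
        linarith
      · intro y hy
        exact hVs y _ (eball_subset_ecball' a r (hDa 0 hy)) (by linarith) (by linarith)
      · intro y hy
        exact hl4 y (eball_subset_ecball' a r (hDa 0 hy))
    have hannulus : ∀ k, ∀ y ∈ D (k + 1) \ D k, 2 ^ k * ρ ≤ ed y x₀ := by
      intro k y hy
      by_contra hlt
      rw [not_le] at hlt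
      exact hy.2 ⟨hy.1.1, (mem_eball (mul_pos (hp0 k) hρ0)).mpr hlt⟩
    have hE : ∀ k, D (k + 1) \ D k ⊆ ecball x₀ (2 * (2 ^ k * ρ)) := by
      intro k y hy
      have h1 : y ∈ eball x₀ (2 ^ (k + 1) * ρ) := hy.1.2
      have e1 : 2 ^ (k + 1) * ρ = 2 * (2 ^ k * ρ) := by rw [pow_succ]; ring
      rw [e1] at h1
      exact eball_subset_ecball' _ _ h1
    have hk0 : ∫ p in D 1 \ D 0, f p ≤ N * (C₁ * V ^ α) := by
      refine piece HN hC₁ h hball (x₀ := x₀) (t := ρ) hρ0 (by linarith) (E := D 1 \ D 0) ?_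
        (Set.sdiff_subset.trans (hDa 1)) ((hDm 1).diff (hDm 0)) (W := V) ?_ ?_ hV0.le
      · have := hE 0
        rwa [pow_zero, one_mul] at this
      · intro y hy
        exact hVs y _ (eball_subset_ecball' a r (hDa 1 hy.1)) (by linarith) (by linarith)
      · intro y hy
        exact hl4 y (eball_subset_ecball' a r (hDa 1 hy.1))
    have hk : ∀ k, k < j + 3 → ∫ p in D (k + 2) \ D (k + 1), f p ≤ N * (C₁ * w k) := by
      intro k hkj
      have hs := hscale (k + 1) (by omega)
      have htp : 0 < 2 ^ (k + 1) * ρ := mul_pos (hp0 _) hρ0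
      have hout : ∀ y ∈ D (k + 2) \ D (k + 1), gvol (cmet u G) (eball y (2 ^ (k + 1) * ρ / 4)) ≤
          gvol (cmet u G) (eball a (2 * r) \ eball x₀ (2 ^ k * ρ)) := by
        intro y hy
        refine h.vol_mono ?_ Set.sdiff_subset (hm2.diff (isOpen_eball x₀ _).measurableSet)
        intro p hp
        refine ⟨eball_sub (by linarith) hr.le (eball_subset_ecball' a r hy.1.1)
          (by linarith) hp, ?_⟩
        intro hp2
        rw [mem_eball (by linarith)] at hp
        rw [mem_eball (mul_pos (hp0 k) hρ0)] at hp2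
        have h1 := hannulus (k + 1) y hy
        have h2 := ed_triangle y p x₀
        rw [ed_comm y p] at h2
        have e1 : 2 ^ (k + 1) * ρ = 2 * (2 ^ k * ρ) := by rw [pow_succ]; ring
        rw [e1] at hp h1
        have := mul_pos (hp0 k) hρ0
        linarith
      exact piece HN hC₁ h hball (x₀ := x₀) (t := 2 ^ (k + 1) * ρ) htp (by linarith)
        (E := D (k + 2) \ D (k + 1)) (hE (k + 1)) (Set.sdiff_subset.trans (hDa _))
        ((hDm _).diff (hDm _)) hout (fun y hy => (hout y hy).trans (hWhalf k)) (hWnn k)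
    -- the sum
    have hDmono : ∀ k, D k ⊆ D (k + 1) := fun k p hp => by
      refine ⟨hp.1, ?_⟩
      have h1 := hp.2
      rw [mem_eball (mul_pos (hp0 _) hρ0)] at h1 ⊢
      exact lt_of_lt_of_le h1 (hpow k)
    have hsplit : ∀ k, ∫ p in D (k + 1), f p =
        (∫ p in D k, f p) + ∫ p in D (k + 1) \ D k, f p := by
      intro k
      have h1 := setIntegral_union (f := f) (μ := volume) (s := D k) (t := D (k + 1) \ D k)
        Set.disjoint_sdiff_right ((hDm (k + 1)).diff (hDm k)) (hfi ((hDa k).trans hrr))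
        (hfi ((Set.sdiff_subset.trans (hDa _)).trans hrr))
      rw [Set.union_sdiff_cancel (hDmono k)] at h1
      exact h1
    have hind : ∀ J, J ≤ j + 3 → ∫ p in D (J + 1), f p ≤
        2 * (N * (C₁ * V ^ α)) + N * C₁ * ∑ k ∈ Finset.range J, w k := by
      intro J
      induction J with
      | zero =>
        intro _
        rw [hsplit 0, Finset.range_zero, Finset.sum_empty]
        linarith
      | succ J ih =>
        intro hJ
        rw [hsplit (J + 1), Finset.sum_range_succ]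
        have h1 := ih (by omega)
        have h2 := hk J (by omega)
        have h3 : (N : ℝ) * (C₁ * w J) = N * C₁ * w J := by ring
        rw [h3] at h2
        linarith
    have hDtop : D (j + 3 + 1) = eball a r := by
      refine Set.inter_eq_left.mpr ?_
      intro p hp
      have h1 : (2 : ℝ) ^ (j + 3 + 1) * ρ = 2 * r := by
        have : (2 : ℝ) ^ (j + 3 + 1) = 2 ^ j * 16 := by rw [pow_add, pow_add]; norm_num [mul_assoc]
        rw [this]
        calc 2 ^ j * 16 * ρ = 16 * (2 ^ j * ρ) := by ring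
          _ = 2 * r := by rw [hρr]; ring
      rw [h1, mem_eball (by linarith)]
      rw [mem_eball hr] at hp
      have h2 := ed_triangle p a x₀
      have h3 : ed a x₀ ≤ r := by
        rw [ed_comm]
        exact (mem_ecball hr.le).mp hx₀
      linarith
    have hgeo : ∑ k ∈ Finset.range (j + 3), w k ≤ 2 * m * w 0 := by
      refine geom_sum hm (fun k => Real.rpow_nonneg (hWnn k) _) (fun k => ?_) (fun k hk' => ?_)
      · exact Real.rpow_le_rpow (hWnn _) (hWmono k) hα
      · refine H2 h x₀ ρ hx₀ hρ0 hheavy k ?_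
        have h1 : (2 : ℝ) ^ (k + m) ≤ 2 ^ (j + 3) := pow_le_pow_right₀ (by norm_num) hk'.le
        have h2 : (2 : ℝ) ^ (j + 3) * ρ = r := by
          have : (2 : ℝ) ^ (j + 3) = 2 ^ j * 8 := by rw [pow_add]; norm_num
          rw [this]
          calc 2 ^ j * 8 * ρ = 8 * (2 ^ j * ρ) := by ring
            _ = r := by rw [hρr]; ring
        calc 2 ^ (k + m) * ρ ≤ 2 ^ (j + 3) * ρ := mul_le_mul_of_nonneg_right h1 hρ0.le
          _ = r := h2
    have hw0 : w 0 ≤ V ^ α := by
      refine Real.rpow_le_rpow (hWnn 0) ?_ hα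
      exact (hWhalf 0).trans (by linarith)
    have hfin := hind (j + 3) le_rfl
    rw [hDtop] at hfin
    have h5 : (N : ℝ) * C₁ * ∑ k ∈ Finset.range (j + 3), w k ≤ N * C₁ * (2 * m * V ^ α) := by
      refine mul_le_mul_of_nonneg_left (hgeo.trans ?_) hNC
      exact mul_le_mul_of_nonneg_left hw0 (by positivity)
    calc ∫ p in eball a r, f p ≤ 2 * (N * (C₁ * V ^ α))
          + N * C₁ * ∑ k ∈ Finset.range (j + 3), w k := hfin
      _ ≤ 2 * (N * (C₁ * V ^ α)) + N * C₁ * (2 * m * V ^ α) := by linarith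
      _ = N * C₁ * (2 + 2 * m) * V ^ α := by ring

end

end Pool.Agent.Helper50.CP
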