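import Pool.Agent.Helper50.CP.Vol

/-! # CP-4: the Sobolev inequality on sets with at most half of the volume

PROOF. Let `q = 2n/(n-2)`, `α = (n-2)/n`, so `q α = 2`; `f` supported in `A`, `c` from `h.sp`,
`I = ∫_{A₀} |f - c|^q dv`, `A₀ = eball a (2 r)`, `V = gvol A₀`. On `A₀ \ A` (volume `≥ V/2`, `vol_diff`)
`f = 0`, so `|c|^q gvol A ≤ |c|^q gvol (A₀ \ A) = ∫_{A₀ \ A} |f - c|^q`. As
`|f|^q ≤ 2^q (|f - c|^q + |c|^q)` this gives `∫ |f|^q = ∫_A |f|^q ≤ 2^q I` and
`(∫ |f|^q)^α ≤ (2^q)^α I^α = 4 I^α`. -/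

namespace Pool.Agent.Helper50.CP

open scoped ContDiff Topology
open Pool.Agent.Helper49.Ric Pool.Agent.Helper73.HB Pool.Agent.Helper50.CF
  Pool.Agent.Helper50.CG MeasureTheory Filter

noncomputable section

variable {n : ℕ} {K S Lam : ℝ} {Ω : Set (Fin n → ℝ)}
  {G : (Fin n → ℝ) → Matrix (Fin n) (Fin n) ℝ} {u : (Fin n → ℝ) → ℝ} {a : Fin n → ℝ} {r lam : ℝ}

/-- `|x|^q ≤ 2^q (|x - c|^q + |c|^q)` -/
theorem abs_rpow_le_two (x c : ℝ) {q : ℝ} (hq : 0 < q) :
    |x| ^ q ≤ 2 ^ q * (|x - c| ^ q + |c| ^ q) := by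
  have h1 : |x| ≤ 2 * max |x - c| |c| := by
    have e : |x| ≤ |x - c| + |c| := by
      have := abs_add_le (x - c) c
      simpa using this
    have e1 := le_max_left |x - c| |c|
    have e2 := le_max_right |x - c| |c|
    linarith
  have h2 : |x| ^ q ≤ (2 * max |x - c| |c|) ^ q := Real.rpow_le_rpow (abs_nonneg _) h1 hq.le
  rw [Real.mul_rpow (by norm_num) (le_max_of_le_left (abs_nonneg _))] at h2
  refine h2.trans (mul_le_mul_of_nonneg_left ?_ (by positivity))
  have a1 : 0 ≤ |x - c| ^ q := Real.rpow_nonneg (abs_nonneg _) _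
  have a2 : 0 ≤ |c| ^ q := Real.rpow_nonneg (abs_nonneg _) _
  rcases max_choice |x - c| |c| with e | e <;> rw [e] <;> linarith

theorem sob_of_half (h : Setup n K S Lam Ω G u a r lam) {A : Set (Fin n → ℝ)}
    (hA : A ⊆ eball a (2 * r)) (hm : MeasurableSet A)
    (hv : gvol (cmet u G) A ≤ 1 / 2 * gvol (cmet u G) (eball a (2 * r))) :
    Sobolev (cmet u G) A (8 * S) := by
  intro f hf hcs hs
  obtain ⟨c, hc⟩ := h.sp f hf hcs (hs.trans hA)
  have hn : (3 : ℝ) ≤ n := by exact_mod_cast h.hn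
  have hn2 : (0 : ℝ) < n - 2 := by linarith
  have hn0 : (0 : ℝ) < n := by linarith
  have hq0 : (0 : ℝ) < 2 * n / (n - 2) := div_pos (by linarith) hn2
  have hα0 : (0 : ℝ) < (n - 2) / n := div_pos hn2 hn0
  have hqα : (2 * n / (n - 2) : ℝ) * ((n - 2) / n) = 2 := by
    field_simp
  generalize (2 * n / (n - 2) : ℝ) = q at *
  generalize ((n - 2) / n : ℝ) = α at *
  have hwc := h.dens_cont
  have hw0 : ∀ p, 0 ≤ Real.sqrt (cmet u G p).det := fun p => Real.sqrt_nonneg _
  have hwV : ∀ B : Set (Fin n → ℝ), gvol (cmet u G) B = ∫ p in B, Real.sqrt (cmet u G p).det :=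
    fun B => rfl
  have hdiff := h.vol_diff hA hm
  have hfc : Continuous f := hf.continuous
  have i1 : ∀ {B : Set (Fin n → ℝ)}, B ⊆ eball a (2 * r) →
      IntegrableOn (fun p => |f p - c| ^ q * Real.sqrt (cmet u G p).det) B := fun hB =>
    h.integrableOn ((((hfc.sub continuous_const).abs.rpow_const
      (fun _ => Or.inr hq0.le)).continuousOn).mul hwc) hB
  have i2 : ∀ {B : Set (Fin n → ℝ)}, B ⊆ eball a (2 * r) →
      IntegrableOn (fun p => |f p| ^ q * Real.sqrt (cmet u G p).det) B := fun hB =>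
    h.integrableOn (((hfc.abs.rpow_const (fun _ => Or.inr hq0.le)).continuousOn).mul hwc) hB
  have i3 : ∀ {B : Set (Fin n → ℝ)}, B ⊆ eball a (2 * r) →
      IntegrableOn (fun p => |c| ^ q * Real.sqrt (cmet u G p).det) B := fun hB =>
    h.integrableOn (continuousOn_const.mul hwc) hB
  have hz : ∀ p, p ∉ A → f p = 0 := fun p hp => image_eq_zero_of_notMem_tsupport fun hp' => hp (hs hp')
  have e0 : ∫ p, |f p| ^ q * Real.sqrt (cmet u G p).det =
      ∫ p in A, |f p| ^ q * Real.sqrt (cmet u G p).det := by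
    rw [setIntegral_eq_integral_of_forall_compl_eq_zero]
    intro p hp
    rw [hz p hp, abs_zero, Real.zero_rpow hq0.ne', zero_mul]
  have e1 : ∫ p in A, |f p| ^ q * Real.sqrt (cmet u G p).det ≤
      ∫ p in A, 2 ^ q * (|f p - c| ^ q * Real.sqrt (cmet u G p).det +
        |c| ^ q * Real.sqrt (cmet u G p).det) := by
    refine setIntegral_mono_on (i2 hA) (((i1 hA).add (i3 hA)).const_mul _) hm fun p _ => ?_
    have := mul_le_mul_of_nonneg_right (abs_rpow_le_two (f p) c hq0) (hw0 p)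
    calc _ ≤ _ := this
      _ = _ := by ring
  rw [integral_const_mul, integral_add (i1 hA) (i3 hA), integral_const_mul, ← hwV] at e1
  have e2 : ∫ p in eball a (2 * r) \ A, |f p - c| ^ q * Real.sqrt (cmet u G p).det =
      |c| ^ q * gvol (cmet u G) (eball a (2 * r) \ A) := by
    rw [hwV, ← integral_const_mul]
    refine setIntegral_congr_fun (((isOpen_eball a (2 * r)).measurableSet).diff hm) fun p hp => ?_
    rw [hz p hp.2, zero_sub, abs_neg]
  have e3 : (∫ p in A, |f p - c| ^ q * Real.sqrt (cmet u G p).det) +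
      ∫ p in eball a (2 * r) \ A, |f p - c| ^ q * Real.sqrt (cmet u G p).det =
      ∫ p in eball a (2 * r), |f p - c| ^ q * Real.sqrt (cmet u G p).det := by
    have := integral_inter_add_sdiff hm (i1 (subset_refl (eball a (2 * r))))
    rwa [Set.inter_eq_self_of_subset_right hA] at this
  have hcq : 0 ≤ |c| ^ q := Real.rpow_nonneg (abs_nonneg _) _
  have e4 : |c| ^ q * gvol (cmet u G) A ≤ |c| ^ q * gvol (cmet u G) (eball a (2 * r) \ A) :=
    mul_le_mul_of_nonneg_left (by rw [hdiff]; linarith) hcq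
  have h2q : (0 : ℝ) < 2 ^ q := Real.rpow_pos_of_pos (by norm_num) _
  have e5 : ∫ p, |f p| ^ q * Real.sqrt (cmet u G p).det ≤
      2 ^ q * ∫ p in eball a (2 * r), |f p - c| ^ q * Real.sqrt (cmet u G p).det := by
    rw [e0, ← e3, e2]
    exact e1.trans (mul_le_mul_of_nonneg_left (by linarith) h2q.le)
  have hI : 0 ≤ ∫ p in eball a (2 * r), |f p - c| ^ q * Real.sqrt (cmet u G p).det :=
    integral_nonneg fun p => mul_nonneg (Real.rpow_nonneg (abs_nonneg _) _) (hw0 p)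
  have e6 : (∫ p, |f p| ^ q * Real.sqrt (cmet u G p).det) ^ α ≤
      (2 ^ q * ∫ p in eball a (2 * r), |f p - c| ^ q * Real.sqrt (cmet u G p).det) ^ α :=
    Real.rpow_le_rpow (integral_nonneg fun p =>
      mul_nonneg (Real.rpow_nonneg (abs_nonneg _) _) (hw0 p)) e5 hα0.le
  rw [Real.mul_rpow h2q.le hI, ← Real.rpow_mul (by norm_num), hqα] at e6
  have e7 : (0 : ℝ) ≤ (∫ p in eball a (2 * r), |f p - c| ^ q * Real.sqrt (cmet u G p).det) ^ α :=
    Real.rpow_nonneg hI _
  have e8 : (2 : ℝ) ^ (2 : ℝ) = 4 := by norm_num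
  rw [e8] at e6
  rw [mul_assoc]
  linarith

end

end Pool.Agent.Helper50.CP
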