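import Pool.Agent.Helper50.CP.Ball
import Pool.Agent.Helper50.CP.LogCut
import Pool.Agent.Helper50.CP.Conc
import Pool.Agent.Helper50.CP.Cover

/-! # CP-8: summation of the local bounds

`f = (scal + n lam) sqrt det ≥ 0` on `eball a (2 r)`, `α = (n-2)/n`, `V = gvol (eball a (2 r))`.
`cover_int`: for a finite cover of `E` by balls `eball y s`: `∫_E f ≤ Σ_{y∈F} ∫_{eball y s} f`.
`geom_sum`: if `w` is nonincreasing, `w 0 ≤ V`-type bound and `w (k+m) ≤ w k / 2` then
`Σ_{k<J} w k ≤ 2 m w 0`. -/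

namespace Pool.Agent.Helper50.CP

open scoped ContDiff Topology
open Pool.Agent.Helper49.Ric Pool.Agent.Helper73.HB Pool.Agent.Helper50.CF
  Pool.Agent.Helper50.CG MeasureTheory Filter

noncomputable section

variable {n : ℕ} {K S Lam : ℝ} {Ω : Set (Fin n → ℝ)}
  {G : (Fin n → ℝ) → Matrix (Fin n) (Fin n) ℝ} {u : (Fin n → ℝ) → ℝ} {a : Fin n → ℝ} {r lam : ℝ}

/-- a finite cover: `∫_E f ≤ N B` if the integral over each ball is at most `B` -/
theorem cover_int (h : Setup n K S Lam Ω G u a r lam) {E : Set (Fin n → ℝ)}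
    (hE : E ⊆ eball a (2 * r)) (hEm : MeasurableSet E) {F : Finset (Fin n → ℝ)} {N : ℕ}
    (hN : F.card ≤ N) {s B : ℝ} (hB : 0 ≤ B) (hs : ∀ y ∈ F, eball y s ⊆ eball a (2 * r))
    (hc : ∀ x ∈ E, ∃ y ∈ F, x ∈ eball y s)
    (hb : ∀ y ∈ F, ∫ p in eball y s, (scal (cmet u G) p + n * lam) *
      Real.sqrt (cmet u G p).det ≤ B) :
    ∫ p in E, (scal (cmet u G) p + n * lam) * Real.sqrt (cmet u G p).det ≤ N * B := by
  set f : (Fin n → ℝ) → ℝ := fun p => (scal (cmet u G) p + n * lam) *
    Real.sqrt (cmet u G p).det with hf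
  have hfi : IntegrableOn f (eball a (2 * r)) := h.integrableOn h.sc_cont subset_rfl
  have hf0 : ∀ p ∈ eball a (2 * r), 0 ≤ f p := fun p hp => h.sc_nonneg hp
  have hm : ∀ y : Fin n → ℝ, MeasurableSet (eball y s) := fun y => (isOpen_eball y s).measurableSet
  have hind : ∀ y ∈ F, IntegrableOn ((eball y s).indicator f) E := fun y hy =>
    ((hfi.mono_set (hs y hy)).integrable_indicator (hm y)).integrableOn
  have h1 : ∫ p in E, f p ≤ ∫ p in E, ∑ y ∈ F, (eball y s).indicator f p := by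
    refine setIntegral_mono_on (hfi.mono_set hE) (integrable_finsetSum F hind) hEm fun p hp => ?_
    obtain ⟨y, hy, hpy⟩ := hc p hp
    have h2 : f p = (eball y s).indicator f p := (Set.indicator_of_mem hpy f).symm
    rw [h2]
    refine Finset.single_le_sum (f := fun y => (eball y s).indicator f p) (fun z hz => ?_) hy
    change 0 ≤ (eball z s).indicator f p
    by_cases hpz : p ∈ eball z s
    · rw [Set.indicator_of_mem hpz]
      exact hf0 p (hs z hz hpz)
    · rw [Set.indicator_of_notMem hpz]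
  have h2 : ∫ p in E, ∑ y ∈ F, (eball y s).indicator f p =
      ∑ y ∈ F, ∫ p in E, (eball y s).indicator f p := integral_finsetSum F hind
  have h3 : ∀ y ∈ F, ∫ p in E, (eball y s).indicator f p ≤ B := fun y hy => by
    rw [setIntegral_indicator (hm y)]
    refine le_trans ?_ (hb y hy)
    refine setIntegral_mono_set (hfi.mono_set (hs y hy)) ?_
      (Eventually.of_forall Set.inter_subset_right)
    exact (ae_restrict_iff' (hm y)).mpr (Eventually.of_forall fun p hp => hf0 p (hs y hy hp))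
  calc ∫ p in E, f p ≤ ∑ y ∈ F, ∫ p in E, (eball y s).indicator f p := h1.trans h2.le
    _ ≤ ∑ _y ∈ F, B := Finset.sum_le_sum h3
    _ = F.card * B := by rw [Finset.sum_const, nsmul_eq_mul]
    _ ≤ N * B := mul_le_mul_of_nonneg_right (by exact_mod_cast hN) hB

theorem geom_sum {w : ℕ → ℝ} {m J : ℕ} (hm : 1 ≤ m) (h0 : ∀ k, 0 ≤ w k)
    (hmono : ∀ k, w (k + 1) ≤ w k) (hdec : ∀ k, k + m < J → w (k + m) ≤ 1 / 2 * w k) :
    ∑ k ∈ Finset.range J, w k ≤ 2 * m * w 0 := by
  have hanti : Antitone w := antitone_nat_of_succ_le hmono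
  have hm0 : (0 : ℝ) ≤ m * w 0 := mul_nonneg (Nat.cast_nonneg m) (h0 0)
  have hle : ∀ L : ℕ, L ≤ m → ∑ k ∈ Finset.range L, w k ≤ m * w 0 := by
    intro L hL
    calc ∑ k ∈ Finset.range L, w k ≤ ∑ _k ∈ Finset.range L, w 0 :=
          Finset.sum_le_sum fun k _ => hanti (Nat.zero_le k)
      _ = L * w 0 := by rw [Finset.sum_const, Finset.card_range, nsmul_eq_mul]
      _ ≤ m * w 0 := mul_le_mul_of_nonneg_right (by exact_mod_cast hL) (h0 0)
  induction J using Nat.strong_induction_on with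
  | _ J ih =>
    rcases Nat.lt_or_ge m J with hJ | hJ
    · obtain ⟨L, rfl⟩ : ∃ L, J = m + L := ⟨J - m, by omega⟩
      rw [Finset.sum_range_add]
      have h1 := ih L (by omega) (fun k hk => hdec k (by omega))
      have h2 : ∑ k ∈ Finset.range L, w (m + k) ≤ ∑ k ∈ Finset.range L, 1 / 2 * w k :=
        Finset.sum_le_sum fun k hk => by
          have := hdec k (by have := Finset.mem_range.mp hk; omega)
          rwa [add_comm k m] at this
      rw [← Finset.mul_sum] at h2
      have h3 := hle m le_rfl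
      linarith
    · have h1 := hle J hJ
      linarith

end

end Pool.Agent.Helper50.CP
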