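import Pool.Agent.Helper50.CP.Dist

/-! # CP-3: the volume of the metric `cmet u G`

PROOF. `cmet u G` is a metric on `Ω` (`isMetricOn_cmet`), its density `dens (cmet u G)` is continuous
and positive on `Ω ⊇ ecball a (2 r)` (`smooth_dens`, `dens_pos`; `dens M p = sqrt (M p).det` by
definition), so it is integrable on every subset of the compact `ecball a (2 r)`. -/

namespace Pool.Agent.Helper50.CP

open scoped ContDiff Topology
open Pool.Agent.Helper49.Ric Pool.Agent.Helper73.HB Pool.Agent.Helper50.CF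
  Pool.Agent.Helper50.CG MeasureTheory Filter

noncomputable section

variable {n : ℕ} {K S Lam : ℝ} {Ω : Set (Fin n → ℝ)}
  {G : (Fin n → ℝ) → Matrix (Fin n) (Fin n) ℝ} {u : (Fin n → ℝ) → ℝ} {a : Fin n → ℝ} {r lam : ℝ}

theorem Setup.met (h : Setup n K S Lam Ω G u a r lam) : IsMetricOn Ω (cmet u G) :=
  isMetricOn_cmet h.bg.met h.smooth

theorem Setup.sub' (h : Setup n K S Lam Ω G u a r lam) : eball a (2 * r) ⊆ Ω :=
  (eball_subset_ecball' _ _).trans h.bg.sub

theorem Setup.dens_cont (h : Setup n K S Lam Ω G u a r lam) :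
    ContinuousOn (fun p => Real.sqrt (cmet u G p).det) (ecball a (2 * r)) := by
  intro p hp
  exact (smooth_dens h.met (h.bg.sub hp)).continuousAt.continuousWithinAt

theorem Setup.dens_nonneg (u : (Fin n → ℝ) → ℝ) (G : (Fin n → ℝ) → Matrix (Fin n) (Fin n) ℝ)
    (p : Fin n → ℝ) : 0 ≤ Real.sqrt (cmet u G p).det := Real.sqrt_nonneg _

/-- functions continuous on the closed ball are integrable on subsets -/
theorem Setup.integrableOn (h : Setup n K S Lam Ω G u a r lam) {f : (Fin n → ℝ) → ℝ}
    (hf : ContinuousOn f (ecball a (2 * r))) {A : Set (Fin n → ℝ)} (hA : A ⊆ eball a (2 * r)) :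
    IntegrableOn f A :=
  (hf.integrableOn_compact (isCompact_ecball' a (2 * r))).mono_set
    (hA.trans (eball_subset_ecball' _ _))

theorem Setup.vol_mono (h : Setup n K S Lam Ω G u a r lam) {A A' : Set (Fin n → ℝ)}
    (hA : A ⊆ A') (hA' : A' ⊆ eball a (2 * r)) (hm : MeasurableSet A') :
    gvol (cmet u G) A ≤ gvol (cmet u G) A' := by
  unfold gvol
  refine setIntegral_mono_set (h.integrableOn h.dens_cont hA') ?_ ?_
  · exact Filter.Eventually.of_forall fun p => Real.sqrt_nonneg _
  · exact Filter.Eventually.of_forall fun p hp => hA hp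

theorem gvol_nonneg (M : (Fin n → ℝ) → Matrix (Fin n) (Fin n) ℝ) (A : Set (Fin n → ℝ)) :
    0 ≤ gvol M A :=
  integral_nonneg fun _ => Real.sqrt_nonneg _

theorem Setup.vol_pos (h : Setup n K S Lam Ω G u a r lam) :
    0 < gvol (cmet u G) (eball a (2 * r)) :=
  gvol_posG h.hn h.bg h.smooth

theorem Setup.vol_diff (h : Setup n K S Lam Ω G u a r lam) {A : Set (Fin n → ℝ)}
    (hA : A ⊆ eball a (2 * r)) (hm : MeasurableSet A) :
    gvol (cmet u G) (eball a (2 * r) \ A) =
      gvol (cmet u G) (eball a (2 * r)) - gvol (cmet u G) A := by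
  unfold gvol
  exact setIntegral_sdiff hm (h.integrableOn h.dens_cont subset_rfl) hA

/-- the function `(scal + n lam) sqrt det` is continuous on the closed ball and nonnegative on the
open ball -/
theorem Setup.sc_cont (h : Setup n K S Lam Ω G u a r lam) :
    ContinuousOn (fun p => (scal (cmet u G) p + n * lam) * Real.sqrt (cmet u G p).det)
      (ecball a (2 * r)) := by
  refine ContinuousOn.mul (ContinuousOn.add ?_ continuousOn_const) h.dens_cont
  intro p hp
  exact (smooth_scal h.met (h.bg.sub hp)).continuousAt.continuousWithinAt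

theorem Setup.sc_nonneg (h : Setup n K S Lam Ω G u a r lam) {p : Fin n → ℝ}
    (hp : p ∈ eball a (2 * r)) :
    0 ≤ (scal (cmet u G) p + n * lam) * Real.sqrt (cmet u G p).det := by
  refine mul_nonneg ?_ (Real.sqrt_nonneg _)
  exact scal_lower h.met (h.sub' hp) (h.ric p hp)

end

end Pool.Agent.Helper50.CP
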